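import Mathlib

/-! Tensor product Bernstein operators on the cube. -/

open Filter Topology

namespace Pool.Agent.Helper947.Am

/-- Bernstein polynomial. -/
noncomputable def bern (N k : ℕ) (t : ℝ) : ℝ := (N.choose k : ℝ) * t ^ k * (1 - t) ^ (N - k)

/-- The tensor product Bernstein operator. -/
noncomputable def BN {n : ℕ} {F : Type*} [NormedAddCommGroup F] [NormedSpace ℝ F] (N : ℕ)
    (g : (Fin n → ℝ) → F) (s : Fin n → ℝ) : F :=
  ∑ α : Fin n → Fin (N + 1), (∏ i, bern N (α i) (s i)) • g (fun i => ((α i : ℕ) : ℝ) / N)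

variable {n : ℕ} {F : Type*} [NormedAddCommGroup F] [NormedSpace ℝ F]

theorem bernB_zero (N k : ℕ) : bern N k 0 = if k = 0 then 1 else 0 := by
  unfold bern
  split_ifs with h
  · subst h; simp
  · rw [zero_pow h]; simp

theorem bernB_one (N k : ℕ) (hk : k ≤ N) : bern N k 1 = if k = N then 1 else 0 := by
  unfold bern
  split_ifs with h
  · subst h; simp
  · have : N - k ≠ 0 := by omega
    rw [sub_self, zero_pow this]; simp

theorem bernB_sum (N : ℕ) (t : ℝ) : ∑ k : Fin (N + 1), bern N k t = 1 := by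
  have h := add_pow t (1 - t) N
  rw [add_sub_cancel, one_pow, Finset.sum_range] at h
  rw [h]
  refine Finset.sum_congr rfl fun k _ => ?_
  unfold bern
  ring

theorem bernB_nonneg (N k : ℕ) {t : ℝ} (h0 : 0 ≤ t) (h1 : t ≤ 1) : 0 ≤ bern N k t := by
  unfold bern
  have : 0 ≤ 1 - t := by linarith
  positivity

theorem bernB_var (N : ℕ) (t : ℝ) :
    ∑ k : Fin (N + 1), bern N k t * ((N : ℝ) * t - (k : ℕ)) ^ 2 = N * t * (1 - t) := by
  have h := congrArg (Polynomial.eval t) (bernsteinPolynomial.variance ℝ N)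
  rw [Polynomial.eval_finset_sum, Finset.sum_range] at h
  simp only [bernsteinPolynomial, Polynomial.eval_mul, Polynomial.eval_pow, Polynomial.eval_sub,
    Polynomial.eval_X, Polynomial.eval_natCast, Polynomial.eval_one, nsmul_eq_mul] at h
  rw [← h]
  refine Finset.sum_congr rfl fun k _ => ?_
  unfold bern
  ring

/-- expansion along one coordinate -/
theorem BN_insertNth (N : ℕ) (g : (Fin (n + 1) → ℝ) → F) (i : Fin (n + 1)) (a : ℝ)
    (s : Fin n → ℝ) :
    BN N g (i.insertNth (α := fun _ => ℝ) a s) =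
      ∑ k : Fin (N + 1), bern N k a •
        BN N (fun s' => g (i.insertNth (α := fun _ => ℝ) (((k : ℕ) : ℝ) / N) s')) s := by
  unfold BN
  rw [← (Fin.insertNthEquiv (fun _ => Fin (N + 1)) i).sum_comp, Fintype.sum_prod_type]
  refine Finset.sum_congr rfl fun k _ => ?_
  rw [Finset.smul_sum]
  refine Finset.sum_congr rfl fun β _ => ?_
  rw [smul_smul]
  have h1 : ∏ j, bern N ((Fin.insertNthEquiv (fun _ => Fin (N + 1)) i (k, β)) j)
      (i.insertNth (α := fun _ => ℝ) a s j) = bern N k a * ∏ j, bern N (β j) (s j) := by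
    rw [Fin.prod_univ_succAbove _ i]
    simp [Fin.insertNthEquiv]
  rw [h1]
  congr 2
  rw [Fin.eq_insertNth_iff]
  constructor
  · simp [Fin.insertNthEquiv]
  · funext j
    simp [Fin.insertNthEquiv, Fin.removeNth]

/-- Naturality with respect to the faces `s_i = 0`. -/
theorem BN_insertNth_zero (N : ℕ) (g : (Fin (n + 1) → ℝ) → F) (i : Fin (n + 1)) (s : Fin n → ℝ) :
    BN N g (i.insertNth (α := fun _ => ℝ) 0 s) =
      BN N (fun s' => g (i.insertNth (α := fun _ => ℝ) 0 s')) s := by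
  rw [BN_insertNth, Finset.sum_eq_single 0]
  · rw [bernB_zero]
    simp
  · intro k _ hk
    rw [bernB_zero, if_neg, zero_smul]
    intro h
    exact hk (Fin.ext h)
  · intro h
    exact absurd (Finset.mem_univ _) h

/-- Naturality with respect to the faces `s_i = 1`. -/
theorem BN_insertNth_one (N : ℕ) (hN : 1 ≤ N) (g : (Fin (n + 1) → ℝ) → F) (i : Fin (n + 1))
    (s : Fin n → ℝ) :
    BN N g (i.insertNth (α := fun _ => ℝ) 1 s) =
      BN N (fun s' => g (i.insertNth (α := fun _ => ℝ) 1 s')) s := by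
  rw [BN_insertNth, Finset.sum_eq_single (Fin.last N)]
  · rw [bernB_one N _ (by simp)]
    have h1 : ((N : ℕ) : ℝ) / N = 1 := div_self (by positivity)
    simp [h1]
  · intro k _ hk
    rw [bernB_one N _ (by omega), if_neg, zero_smul]
    intro h
    exact hk (Fin.ext h)
  · intro h
    exact absurd (Finset.mem_univ _) h

/-- The operator preserves independence of a coordinate. -/
theorem BN_indep (N : ℕ) (g : (Fin n → ℝ) → F) (j : Fin n)
    (hg : ∀ s a, g (Function.update s j a) = g s) (s : Fin n → ℝ) (a : ℝ) :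
    BN N g (Function.update s j a) = BN N g s := by
  obtain ⟨m, rfl⟩ : ∃ m, n = m + 1 := ⟨n - 1, by have := j.2; omega⟩
  have key : ∀ (b : ℝ) (x : Fin m → ℝ), BN N g (j.insertNth (α := fun _ => ℝ) b x) =
      BN N (fun s' => g (j.insertNth (α := fun _ => ℝ) 0 s')) x := by
    intro b x
    rw [BN_insertNth]
    have h1 : ∀ c : ℝ, (fun s' : Fin m → ℝ => g (j.insertNth (α := fun _ => ℝ) c s')) =
        fun s' => g (j.insertNth (α := fun _ => ℝ) 0 s') := by
      intro c
      funext s'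
      have := hg (j.insertNth (α := fun _ => ℝ) 0 s') c
      rw [← this]
      congr 1
      rw [Fin.insertNth_eq_iff]
      constructor
      · simp
      · funext k
        simp [Fin.removeNth, Fin.succAbove_ne]
    simp only [h1]
    rw [← Finset.sum_smul, bernB_sum, one_smul]
  have e1 : Function.update s j a = j.insertNth (α := fun _ => ℝ) a (j.removeNth s) := by
    rw [Fin.eq_insertNth_iff]
    constructor
    · simp
    · funext k
      simp [Fin.removeNth, Fin.succAbove_ne]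
  have e2 : s = j.insertNth (α := fun _ => ℝ) (s j) (j.removeNth s) := by
    rw [Fin.eq_insertNth_iff]
    exact ⟨rfl, rfl⟩
  rw [e1, key]
  conv_rhs => rw [e2]
  rw [key]

/-- The operator depends only on the values on the cube. -/
theorem BN_congr (N : ℕ) (g g' : (Fin n → ℝ) → F)
    (h : ∀ s ∈ Set.Icc (0 : Fin n → ℝ) 1, g s = g' s) : BN N g = BN N g' := by
  funext s
  unfold BN
  refine Finset.sum_congr rfl fun α _ => ?_
  rw [h]
  constructor
  · intro i
    show (0 : ℝ) ≤ ((α i : ℕ) : ℝ) / N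
    positivity
  · intro i
    show ((α i : ℕ) : ℝ) / N ≤ 1
    refine div_le_one_of_le₀ ?_ (by positivity)
    have := (α i).2
    exact_mod_cast Nat.lt_succ_iff.mp this

theorem BN_contDiff (N : ℕ) (g : (Fin n → ℝ) → F) : ContDiff ℝ ⊤ (BN N g) := by
  unfold BN bern
  refine ContDiff.sum fun α _ => ?_
  refine ContDiff.smul ?_ contDiff_const
  refine contDiff_prod fun i _ => ?_
  have hi : ContDiff ℝ ⊤ (fun s : Fin n → ℝ => s i) := contDiff_apply ℝ ℝ i
  exact (contDiff_const.mul (hi.pow _)).mul ((contDiff_const.sub hi).pow _)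

/-- Uniform convergence on the cube. -/
theorem BN_uniform (g : (Fin n → ℝ) → F) (hg : ContinuousOn g (Set.Icc 0 1)) (ε : ℝ) (hε : 0 < ε) :
    ∃ N₀ : ℕ, ∀ N ≥ N₀, ∀ s ∈ Set.Icc (0 : Fin n → ℝ) 1, ‖BN N g s - g s‖ < ε := by
  have hcomp : IsCompact (Set.Icc (0 : Fin n → ℝ) 1) := isCompact_Icc
  have huc := hcomp.uniformContinuousOn_of_continuous hg
  rw [Metric.uniformContinuousOn_iff] at huc
  obtain ⟨δ, hδ, huc⟩ := huc (ε / 2) (by positivity)
  obtain ⟨M, hM⟩ := hcomp.exists_bound_of_continuousOn hg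
  have hM0 : 0 ≤ M := le_trans (norm_nonneg _) (hM 0 ⟨le_refl _, zero_le_one⟩)
  obtain ⟨N₀, hN₀⟩ := exists_nat_gt (2 * M * n / (δ ^ 2) / (ε / 2))
  refine ⟨N₀ + 1, ?_⟩
  intro N hN s hs
  have hNpos : (0 : ℝ) < N := by
    have : 1 ≤ N := by omega
    exact_mod_cast this
  have hs0 : ∀ i, 0 ≤ s i := fun i => hs.1 i
  have hs1 : ∀ i, s i ≤ 1 := fun i => hs.2 i
  set w : (Fin n → Fin (N + 1)) → ℝ := fun α => ∏ i, bern N (α i) (s i) with hw
  have hw0 : ∀ α, 0 ≤ w α := fun α =>
    Finset.prod_nonneg fun i _ => bernB_nonneg N _ (hs0 i) (hs1 i)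
  have hprod : ∀ f : Fin n → Fin (N + 1) → ℝ, ∑ α : Fin n → Fin (N + 1), ∏ i, f i (α i) =
      ∏ i, ∑ k, f i k := by
    intro f
    rw [Finset.prod_univ_sum, Fintype.piFinset_univ]
  have hw1 : ∑ α, w α = 1 := by
    have := hprod (fun i k => bern N k (s i))
    rw [hw]
    rw [this]
    simp only [bernB_sum]
    simp
  have hvar : ∀ i : Fin n, ∑ α, w α * (((α i : ℕ) : ℝ) / N - s i) ^ 2 ≤ 1 / N := by
    intro i
    have h1 := hprod (fun j k => bern N k (s j) * (if j = i then (((k : ℕ) : ℝ) / N - s i) ^ 2 else 1))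
    have h2 : ∀ α : Fin n → Fin (N + 1), w α * (((α i : ℕ) : ℝ) / N - s i) ^ 2 =
        ∏ j, (bern N (α j) (s j) * (if j = i then ((((α j) : ℕ) : ℝ) / N - s i) ^ 2 else 1)) := by
      intro α
      rw [Finset.prod_mul_distrib, Finset.prod_ite_eq' Finset.univ i]
      simp [hw]
    simp only [h2]
    rw [h1, Finset.prod_eq_single i]
    · simp only [if_true]
      have h3 : ∑ k : Fin (N + 1), bern N k (s i) * (((k : ℕ) : ℝ) / N - s i) ^ 2 =
          s i * (1 - s i) / N := by
        have h4 := bernB_var N (s i)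
        have h5 : ∑ k : Fin (N + 1), bern N k (s i) * (((k : ℕ) : ℝ) / N - s i) ^ 2 =
            (1 / (N : ℝ) ^ 2) * ∑ k : Fin (N + 1), bern N k (s i) * ((N : ℝ) * s i - (k : ℕ)) ^ 2 := by
          rw [Finset.mul_sum]
          refine Finset.sum_congr rfl fun k _ => ?_
          field_simp
          ring
        rw [h5, h4]
        field_simp
      rw [h3]
      gcongr
      nlinarith [hs0 i, hs1 i]
    · intro j _ hj
      simp only [if_neg hj, mul_one, bernB_sum]
    · intro h
      exact absurd (Finset.mem_univ _) h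
  have hnode : ∀ α : Fin n → Fin (N + 1),
      (fun i => ((α i : ℕ) : ℝ) / N) ∈ Set.Icc (0 : Fin n → ℝ) 1 := by
    intro α
    constructor
    · intro i
      show (0 : ℝ) ≤ ((α i : ℕ) : ℝ) / N
      positivity
    · intro i
      show ((α i : ℕ) : ℝ) / N ≤ 1
      refine div_le_one_of_le₀ ?_ (by positivity)
      have := (α i).2
      exact_mod_cast Nat.lt_succ_iff.mp this
  have hpt : ∀ α : Fin n → Fin (N + 1), ‖g (fun i => ((α i : ℕ) : ℝ) / N) - g s‖ ≤
      ε / 2 + 2 * M / δ ^ 2 * ∑ i, (((α i : ℕ) : ℝ) / N - s i) ^ 2 := by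
    intro α
    have hsum0 : 0 ≤ ∑ i, (((α i : ℕ) : ℝ) / N - s i) ^ 2 :=
      Finset.sum_nonneg fun i _ => sq_nonneg _
    by_cases hd : dist (fun i => ((α i : ℕ) : ℝ) / N) s < δ
    · have := huc _ (hnode α) s hs hd
      rw [dist_eq_norm] at this
      have h2 : 0 ≤ 2 * M / δ ^ 2 * ∑ i, (((α i : ℕ) : ℝ) / N - s i) ^ 2 := by positivity
      linarith
    · have h1 : ‖g (fun i => ((α i : ℕ) : ℝ) / N) - g s‖ ≤ 2 * M := by
        refine le_trans (norm_sub_le _ _) ?_
        have := hM _ (hnode α)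
        have := hM _ hs
        linarith
      rw [dist_pi_lt_iff hδ] at hd
      push Not at hd
      obtain ⟨i, hi⟩ := hd
      rw [Real.dist_eq] at hi
      have h3 : δ ^ 2 ≤ ∑ i, (((α i : ℕ) : ℝ) / N - s i) ^ 2 := by
        refine le_trans ?_ (Finset.single_le_sum (f := fun i => (((α i : ℕ) : ℝ) / N - s i) ^ 2)
          (fun i _ => sq_nonneg _) (Finset.mem_univ i))
        rw [← sq_abs (((α i : ℕ) : ℝ) / N - s i)]
        gcongr
      have h4 : 2 * M ≤ 2 * M / δ ^ 2 * ∑ i, (((α i : ℕ) : ℝ) / N - s i) ^ 2 := by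
        calc 2 * M = 2 * M / δ ^ 2 * δ ^ 2 := by field_simp
          _ ≤ _ := by gcongr
      linarith
  have hdiff : BN N g s - g s = ∑ α, w α • (g (fun i => ((α i : ℕ) : ℝ) / N) - g s) := by
    simp only [smul_sub]
    rw [Finset.sum_sub_distrib, ← Finset.sum_smul, hw1, one_smul]
    rfl
  rw [hdiff]
  calc ‖∑ α, w α • (g (fun i => ((α i : ℕ) : ℝ) / N) - g s)‖
      ≤ ∑ α, ‖w α • (g (fun i => ((α i : ℕ) : ℝ) / N) - g s)‖ := norm_sum_le _ _
    _ ≤ ∑ α, w α * (ε / 2 + 2 * M / δ ^ 2 * ∑ i, (((α i : ℕ) : ℝ) / N - s i) ^ 2) := by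
        refine Finset.sum_le_sum fun α _ => ?_
        rw [norm_smul, Real.norm_eq_abs, abs_of_nonneg (hw0 α)]
        exact mul_le_mul_of_nonneg_left (hpt α) (hw0 α)
    _ = ε / 2 + 2 * M / δ ^ 2 * ∑ i, ∑ α, w α * (((α i : ℕ) : ℝ) / N - s i) ^ 2 := by
        simp only [mul_add]
        rw [Finset.sum_add_distrib, ← Finset.sum_mul, hw1, one_mul]
        congr 1
        rw [Finset.sum_comm]
        rw [Finset.mul_sum]
        refine Finset.sum_congr rfl fun α _ => ?_
        rw [Finset.mul_sum, Finset.mul_sum, Finset.mul_sum]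
        refine Finset.sum_congr rfl fun i _ => ?_
        ring
    _ ≤ ε / 2 + 2 * M / δ ^ 2 * ∑ i : Fin n, 1 / (N : ℝ) := by
        gcongr with i _
        exact hvar i
    _ < ε := by
        rw [Finset.sum_const, Finset.card_univ, Fintype.card_fin, nsmul_eq_mul]
        have h1 : 2 * M * n / (δ ^ 2) / (ε / 2) < N := by
          refine lt_of_lt_of_le hN₀ ?_
          exact_mod_cast (by omega : N₀ ≤ N)
        rw [div_lt_iff₀ (by positivity)] at h1
        have h2 : 2 * M / δ ^ 2 * (n * (1 / (N : ℝ))) < ε / 2 := by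
          have : 2 * M / δ ^ 2 * (n * (1 / (N : ℝ))) = (2 * M * n / δ ^ 2) / N := by
            field_simp
          rw [this, div_lt_iff₀ hNpos]
          linarith
        linarith

end Pool.Agent.Helper947.Am
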