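import Pool.Agent.Helper947.Am.Torus

/-! Multiplicativity of the annihilator of torus averages (analytic continuation in rotations). -/

open MeasureTheory Filter Topology

namespace Pool.Agent.Helper947.Am


/-- complex rotations -/
noncomputable def Rot {d : ℕ} (v : Fin d → ℝ) (t : ℂ) (z : Fin d → ℂ) : Fin d → ℂ :=
  fun j => Complex.exp (2 * Real.pi * Complex.I * v j * t) * z j

theorem continuous_E {d : ℕ} : Continuous (fun p : (Fin d → ℝ) × UnitAddTorus (Fin d) => E p.1 p.2) := by
  apply continuous_pi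
  intro j
  apply Continuous.mul
  · exact Complex.continuous_ofReal.comp (Real.continuous_exp.comp ((continuous_apply j).comp continuous_fst))
  · exact continuous_subtype_val.comp (AddCircle.continuous_toCircle.comp
      ((continuous_apply j).comp continuous_snd))

theorem continuous_E' {d : ℕ} (x : Fin d → ℝ) : Continuous (fun φ : UnitAddTorus (Fin d) => E x φ) :=
  continuous_E.comp (Continuous.prodMk_right x)

theorem Rot_E {d : ℕ} (v : Fin d → ℝ) (t : ℂ) (x : Fin d → ℝ) (φ : UnitAddTorus (Fin d)) :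
    Rot v t (E x φ) = E (x - t.im • ((2 * Real.pi) • v))
      (φ + fun j => ((v j * t.re : ℝ) : UnitAddCircle)) := by
  funext j
  simp only [Rot, E, Pi.sub_apply, Pi.smul_apply, smul_eq_mul, Pi.add_apply]
  rw [AddCircle.toCircle_add, AddCircle.toCircle_apply_mk]
  simp only [Circle.coe_mul, Circle.coe_exp]
  rw [Complex.ofReal_exp, Complex.ofReal_exp]
  have h1 : (2 * Real.pi * Complex.I * v j * t : ℂ) =
      ((2 * Real.pi / 1 * (v j * t.re) : ℝ) : ℂ) * Complex.I +
        (-(t.im * (2 * Real.pi * v j)) : ℝ) := by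
    conv_lhs => rw [← Complex.re_add_im t]
    push_cast
    ring_nf
    rw [Complex.I_sq]
    ring
  rw [h1, Complex.exp_add]
  have h2 : ((x j - t.im * (2 * Real.pi * v j) : ℝ) : ℂ) =
      (x j : ℂ) + ((-(t.im * (2 * Real.pi * v j)) : ℝ) : ℂ) := by
    push_cast; ring
  rw [h2, Complex.exp_add]
  ring

theorem continuous_Rot {d : ℕ} (v : Fin d → ℝ) :
    Continuous (fun p : ℂ × (Fin d → ℂ) => Rot v p.1 p.2) := by
  apply continuous_pi
  intro j
  apply Continuous.mul
  · apply Complex.continuous_exp.comp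
    exact continuous_const.mul continuous_fst
  · exact (continuous_apply j).comp continuous_snd

/-- the infinitesimal rotation -/
noncomputable def Dv {d : ℕ} (v : Fin d → ℝ) (g : (Fin d → ℂ) → ℂ) (z : Fin d → ℂ) : ℂ :=
  fderiv ℂ g z (fun j => 2 * Real.pi * Complex.I * v j * z j)

theorem Dv_analytic {d : ℕ} (v : Fin d → ℝ) {U : Set (Fin d → ℂ)} {g : (Fin d → ℂ) → ℂ}
    (hg : AnalyticOnNhd ℂ g U) : AnalyticOnNhd ℂ (Dv v g) U := by
  intro z hz
  have h1 : AnalyticAt ℂ (fun z : Fin d → ℂ => (fun j => 2 * Real.pi * Complex.I * v j * z j :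
      Fin d → ℂ)) z := by
    rw [analyticAt_pi_iff]
    intro j
    apply AnalyticAt.mul analyticAt_const
    exact (ContinuousLinearMap.proj (R := ℂ) (φ := fun _ : Fin d => ℂ) j).analyticAt z
  exact AnalyticAt.comp₂ (h := fun p : ((Fin d → ℂ) →L[ℂ] ℂ) × (Fin d → ℂ) => p.1 p.2)
    ((ContinuousLinearMap.id ℂ ((Fin d → ℂ) →L[ℂ] ℂ)).analyticAt_bilinear _)
    (hg.fderiv z hz) h1

theorem hasDerivAt_Rot {d : ℕ} (v : Fin d → ℝ) (t : ℂ) (z : Fin d → ℂ) :
    HasDerivAt (fun t => Rot v t z) (fun j => 2 * Real.pi * Complex.I * v j * Rot v t z j) t := by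
  rw [hasDerivAt_pi]
  intro j
  have h1 : HasDerivAt (fun t : ℂ => 2 * Real.pi * Complex.I * v j * t)
      (2 * Real.pi * Complex.I * v j) t := by
    simpa using (hasDerivAt_id t).const_mul (2 * Real.pi * Complex.I * (v j : ℂ))
  have h2 := (h1.cexp).mul_const (z j)
  refine h2.congr_deriv ?_
  simp only [Rot]
  ring

theorem hasDerivAt_g {d : ℕ} (v : Fin d → ℝ) {U : Set (Fin d → ℂ)} {g : (Fin d → ℂ) → ℂ}
    (hg : AnalyticOnNhd ℂ g U) (t : ℂ) (z : Fin d → ℂ) (h : Rot v t z ∈ U) :
    HasDerivAt (fun t => g (Rot v t z)) (Dv v g (Rot v t z)) t := by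
  have h1 := (hg _ h).differentiableAt.hasFDerivAt
  exact h1.comp_hasDerivAt t (hasDerivAt_Rot v t z)

section main

variable {d : ℕ} {U : Set (Fin d → ℂ)}

/-- one term -/
noncomputable def FT (v : Fin d → ℝ) (x : Fin d → ℝ) (g₀ g : (Fin d → ℂ) → ℂ) (t : ℂ) : ℂ :=
  ∫ φ : UnitAddTorus (Fin d), g₀ (E x φ) * g (Rot v t (E x φ))

theorem cont_aux (v : Fin d → ℝ) (x : Fin d → ℝ) {g₀ g : (Fin d → ℂ) → ℂ}
    (hx : ∀ φ, E x φ ∈ U) (hg₀ : ContinuousOn g₀ U) (hg : ContinuousOn g U)
    (S : Set ℂ) (hS : ∀ t ∈ S, ∀ φ, Rot v t (E x φ) ∈ U) :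
    ContinuousOn (fun p : ℂ × UnitAddTorus (Fin d) => g₀ (E x p.2) * g (Rot v p.1 (E x p.2)))
      (S ×ˢ Set.univ) := by
  apply ContinuousOn.mul
  · apply Continuous.continuousOn
    exact hg₀.comp_continuous ((continuous_E' x).comp continuous_snd) (fun p => hx _)
  · apply hg.comp (t := U)
    · apply Continuous.continuousOn
      exact (continuous_Rot v).comp (continuous_fst.prodMk ((continuous_E' x).comp continuous_snd))
    · rintro ⟨t, φ⟩ ⟨ht, _⟩
      exact hS t ht φ

theorem hasDerivAt_FT (v : Fin d → ℝ) (x : Fin d → ℝ) {g₀ g : (Fin d → ℂ) → ℂ}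
    (hx : ∀ φ, E x φ ∈ U) (hg₀ : ContinuousOn g₀ U) (hg : AnalyticOnNhd ℂ g U)
    (S : Set ℂ) (hSo : IsOpen S) (hS : ∀ t ∈ S, ∀ φ, Rot v t (E x φ) ∈ U) (t : ℂ) (ht : t ∈ S) :
    HasDerivAt (FT v x g₀ g) (FT v x g₀ (Dv v g) t) t := by
  obtain ⟨δ, hδ, hδS⟩ := Metric.isOpen_iff.1 hSo t ht
  have hcl : Metric.closedBall t (δ/2) ⊆ S :=
    (Metric.closedBall_subset_ball (by linarith)).trans hδS
  have hK : IsCompact (Metric.closedBall t (δ/2) ×ˢ (Set.univ : Set (UnitAddTorus (Fin d)))) :=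
    (isCompact_closedBall t (δ/2)).prod isCompact_univ
  have hc2 := cont_aux v x hx hg₀ (Dv_analytic v hg).continuousOn S hS
  have hc1 := cont_aux v x hx hg₀ hg.continuousOn S hS
  obtain ⟨C, hC⟩ := hK.exists_bound_of_continuousOn (hc2.mono (Set.prod_mono_left hcl))
  have hcont1 : ∀ t' ∈ S, Continuous (fun φ : UnitAddTorus (Fin d) =>
      g₀ (E x φ) * g (Rot v t' (E x φ))) := fun t' ht' =>
    hc1.comp_continuous (Continuous.prodMk_right t') (fun φ => ⟨ht', trivial⟩)
  have hcont2 : ∀ t' ∈ S, Continuous (fun φ : UnitAddTorus (Fin d) =>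
      g₀ (E x φ) * Dv v g (Rot v t' (E x φ))) := fun t' ht' =>
    hc2.comp_continuous (Continuous.prodMk_right t') (fun φ => ⟨ht', trivial⟩)
  have hmain := hasDerivAt_integral_of_dominated_loc_of_deriv_le
    (μ := (volume : Measure (UnitAddTorus (Fin d)))) (𝕜 := ℂ)
    (F := fun t' φ => g₀ (E x φ) * g (Rot v t' (E x φ)))
    (F' := fun t' φ => g₀ (E x φ) * Dv v g (Rot v t' (E x φ))) (x₀ := t)
    (s := Metric.closedBall t (δ/2)) (bound := fun _ => C)
    (Metric.closedBall_mem_nhds t (by positivity)) ?_ ?_ ?_ ?_ ?_ ?_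
  · exact hmain.2
  · filter_upwards [hSo.mem_nhds ht] with t' ht'
    exact (hcont1 t' ht').aestronglyMeasurable
  · exact (hcont1 t ht).integrable_of_hasCompactSupport (HasCompactSupport.of_compactSpace _)
  · exact (hcont2 t ht).aestronglyMeasurable
  · filter_upwards with φ
    intro t' ht'
    exact hC (t', φ) ⟨ht', trivial⟩
  · exact integrable_const _
  · filter_upwards with φ
    intro t' ht'
    exact (hasDerivAt_g v hg t' _ (hS t' (hcl ht') φ)).const_mul _

end main

/-- TARGET -/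
theorem CT_mul {d : ℕ} (U : Set (Fin d → ℂ)) (hU : IsOpen U) {ι : Type} [Fintype ι]
    (x : ι → Fin d → ℝ) (hx : ∀ w φ, E (x w) φ ∈ U) (c : ι → ℂ)
    (hc : ∀ g : (Fin d → ℂ) → ℂ, AnalyticOnNhd ℂ g U → ∑ w, c w * CT (x w) g = 0)
    (g₀ g₁ : (Fin d → ℂ) → ℂ) (hg₀ : AnalyticOnNhd ℂ g₀ U) (hg₁ : AnalyticOnNhd ℂ g₁ U) :
    ∑ w, c w * CT (x w) g₀ * CT (x w) g₁ = 0 := by
  -- rotations
  have hrot : ∀ v : Fin d → ℝ, ∑ w, c w * FT v (x w) g₀ g₁ 1 = 0 := by
    intro v
    have hε : ∀ᶠ b : ℝ in 𝓝 0, ∀ w, ∀ φ ∈ (Set.univ : Set (UnitAddTorus (Fin d))),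
        E (x w - b • ((2 * Real.pi) • v)) φ ∈ U := by
      rw [Filter.eventually_all]
      intro w
      apply isCompact_univ.eventually_forall_of_forall_eventually
      intro φ _
      have hcont : Continuous (fun p : ℝ × UnitAddTorus (Fin d) =>
          E (x w - p.1 • ((2 * Real.pi) • v)) p.2) := by
        have h1 : Continuous (fun p : ℝ × UnitAddTorus (Fin d) =>
            ((x w - p.1 • ((2 * Real.pi) • v), p.2) : (Fin d → ℝ) × UnitAddTorus (Fin d))) := by
          fun_prop
        exact continuous_E.comp h1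
      apply hcont.continuousAt
      apply hU.mem_nhds
      simpa using hx w φ
    obtain ⟨ε, hε0, hε⟩ := Metric.eventually_nhds_iff_ball.1 hε
    set S : Set ℂ := {t | t.im ∈ Metric.ball (0:ℝ) ε} with hSdef
    have hSo : IsOpen S := Metric.isOpen_ball.preimage Complex.continuous_im
    have hS : ∀ w, ∀ t ∈ S, ∀ φ, Rot v t (E (x w) φ) ∈ U := by
      intro w t ht φ
      rw [Rot_E]
      exact hε _ ht w _ trivial
    have hSc : IsPreconnected S := by
      have : Convex ℝ S := (convex_ball (0:ℝ) ε).linear_preimage Complex.imLm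
      exact this.isPreconnected
    let F : ((Fin d → ℂ) → ℂ) → ℂ → ℂ := fun g t => ∑ w, c w * FT v (x w) g₀ g t
    have hder : ∀ g, AnalyticOnNhd ℂ g U → ∀ t ∈ S, HasDerivAt (F g) (F (Dv v g) t) t := by
      intro g hg t ht
      apply HasDerivAt.fun_sum
      intro w _
      exact (hasDerivAt_FT v (x w) (hx w) hg₀.continuousOn hg S hSo (hS w) t ht).const_mul _
    have hzero : ∀ g, AnalyticOnNhd ℂ g U → F g 0 = 0 := by
      intro g hg
      have h1 := hc (fun z => g₀ z * g z) (hg₀.mul hg)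
      refine Eq.trans ?_ h1
      apply Finset.sum_congr rfl
      intro w _
      simp only [FT, CT]
      congr 2
      funext φ
      congr 2
      funext j
      simp [Rot]
    have hiter : ∀ n g, AnalyticOnNhd ℂ g U → ∃ g', AnalyticOnNhd ℂ g' U ∧
        ∀ t ∈ S, iteratedDeriv n (F g) t = F g' t := by
      intro n g hg
      induction n with
      | zero => exact ⟨g, hg, fun t _ => by simp⟩
      | succ n ih =>
        obtain ⟨g', hg', h⟩ := ih
        refine ⟨Dv v g', Dv_analytic v hg', fun t ht => ?_⟩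
        rw [iteratedDeriv_succ]
        have h2 : iteratedDeriv n (F g) =ᶠ[𝓝 t] F g' := by
          filter_upwards [hSo.mem_nhds ht] with s hs
          exact h s hs
        rw [h2.deriv_eq]
        exact (hder g' hg' t ht).deriv
    have hdiff : DifferentiableOn ℂ (F g₁) S := fun t ht =>
      (hder g₁ hg₁ t ht).differentiableAt.differentiableWithinAt
    have hball : Metric.ball (0:ℂ) ε ⊆ S := by
      intro t ht
      rw [mem_ball_zero_iff] at ht
      change t.im ∈ Metric.ball (0:ℝ) ε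
      rw [mem_ball_zero_iff]
      exact (Complex.abs_im_le_norm t).trans_lt ht
    have h0S : (0:ℂ) ∈ S := hball (Metric.mem_ball_self hε0)
    have hnear : F g₁ =ᶠ[𝓝 0] 0 := by
      filter_upwards [Metric.ball_mem_nhds (0:ℂ) hε0] with t ht
      rw [← Complex.taylorSeries_eq_on_ball (hdiff.mono hball) ht]
      have : ∀ n : ℕ, ((n.factorial : ℂ)⁻¹) • (t - 0) ^ n • iteratedDeriv n (F g₁) 0 = 0 := by
        intro n
        obtain ⟨g', hg', h⟩ := hiter n g₁ hg₁
        rw [h 0 h0S, hzero g' hg']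
        simp
      simp only [this]
      simp
    have hall := (hdiff.analyticOnNhd hSo).eqOn_zero_of_preconnected_of_eventuallyEq_zero hSc h0S hnear
    have h1S : (1:ℂ) ∈ S := by
      change (1:ℂ).im ∈ Metric.ball (0:ℝ) ε
      simpa using hε0
    exact hall h1S
  -- all translations
  have htr : ∀ ψ : UnitAddTorus (Fin d), ∑ w, c w * ∫ φ : UnitAddTorus (Fin d),
      g₀ (E (x w) φ) * g₁ (E (x w) (φ + ψ)) = 0 := by
    intro ψ
    have hv : ∀ j, ∃ r : ℝ, (r : UnitAddCircle) = ψ j := fun j => QuotientAddGroup.mk_surjective (ψ j)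
    choose v hv using hv
    rw [← hrot v]
    apply Finset.sum_congr rfl
    intro w _
    simp only [FT]
    congr 2
    funext φ
    rw [Rot_E]
    congr 2
    congr 1
    · simp
    · funext j
      simp [hv]
  -- integrate
  have hcont : ∀ w, Continuous (fun p : UnitAddTorus (Fin d) × UnitAddTorus (Fin d) =>
      g₀ (E (x w) p.2) * g₁ (E (x w) (p.2 + p.1))) := by
    intro w
    apply Continuous.mul
    · exact hg₀.continuousOn.comp_continuous ((continuous_E' (x w)).comp continuous_snd)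
        (fun p => hx w _)
    · exact hg₁.continuousOn.comp_continuous ((continuous_E' (x w)).comp
        (continuous_snd.add continuous_fst)) (fun p => hx w _)
  have hint : ∀ w, Integrable (Function.uncurry (fun ψ φ : UnitAddTorus (Fin d) =>
      g₀ (E (x w) φ) * g₁ (E (x w) (φ + ψ))))
      ((volume : Measure (UnitAddTorus (Fin d))).prod (volume : Measure (UnitAddTorus (Fin d)))) :=
    fun w => (hcont w).integrable_of_hasCompactSupport (HasCompactSupport.of_compactSpace _)
  have h1 : ∫ ψ : UnitAddTorus (Fin d), (∑ w, c w * ∫ φ : UnitAddTorus (Fin d),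
      g₀ (E (x w) φ) * g₁ (E (x w) (φ + ψ))) = 0 := by
    simp only [htr, integral_zero]
  rw [integral_finsetSum] at h1
  · rw [← h1]
    apply Finset.sum_congr rfl
    intro w _
    rw [integral_const_mul, integral_integral_swap (hint w), mul_assoc]
    congr 1
    have h2 : ∀ φ : UnitAddTorus (Fin d), ∫ ψ : UnitAddTorus (Fin d),
        g₀ (E (x w) φ) * g₁ (E (x w) (φ + ψ)) = g₀ (E (x w) φ) * CT (x w) g₁ := by
      intro φ
      rw [integral_const_mul]
      congr 1
      exact integral_add_left_eq_self (fun ψ => g₁ (E (x w) ψ)) φ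
    simp only [h2]
    rw [integral_mul_const]
    rfl
  · intro w _
    apply Integrable.const_mul
    exact (hint w).integral_prod_left

end Pool.Agent.Helper947.Am
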