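import Pool.Agent.Helper947.Am.Defs

open scoped BigOperators

namespace Pool.Agent.Helper947.Am

/-! Everything above is fixed. Prove the following. -/


theorem cubeSimplex_swap {m : ℕ} (π : Equiv.Perm (Fin (m + 1))) (i : Fin m)
    (t : Simplex m) :
    cubeSimplex (π * Equiv.swap i.castSucc i.succ) (faceMap m i.succ.castSucc t) =
      cubeSimplex π (faceMap m i.succ.castSucc t) := by
  funext j
  unfold cubeSimplex
  refine Finset.sum_congr rfl fun k _ => ?_
  have h0 : (faceMap m i.succ.castSucc t).1 i.succ.castSucc = 0 := by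
    simp [faceMap]
  have hs : (π * Equiv.swap i.castSucc i.succ).symm j =
      Equiv.swap i.castSucc i.succ (π.symm j) := by
    rw [Equiv.symm_apply_eq]
    simp
  rw [hs]
  by_cases hk : k = i.succ.castSucc
  · subst hk
    rw [h0]; simp
  · have hk' : (k : ℕ) ≠ (i : ℕ) + 1 := by
      intro h
      apply hk
      apply Fin.ext
      simpa using h
    rcases eq_or_ne (π.symm j) i.castSucc with h1 | h1
    · rw [h1, Equiv.swap_apply_left]
      simp only [Fin.val_succ, Fin.val_castSucc]
      congr 1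
      simp only [eq_iff_iff]
      omega
    · rcases eq_or_ne (π.symm j) i.succ with h2 | h2
      · rw [h2, Equiv.swap_apply_right]
        simp only [Fin.val_succ, Fin.val_castSucc]
        congr 1
        simp only [eq_iff_iff]
        omega
      · rw [Equiv.swap_apply_of_ne_of_ne h1 h2]

theorem face_swap {m : ℕ} (f : (Fin (m + 1) → ℤ) →₀ ℂ) (x : Compl f)
    (π : Equiv.Perm (Fin (m + 1))) (i : Fin m) :
    (torusSimplex f x (π * Equiv.swap i.castSucc i.succ)).comp (faceMap m i.succ.castSucc) =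
      (torusSimplex f x π).comp (faceMap m i.succ.castSucc) := by
  ext1 t
  apply Subtype.ext
  change par x.1 (cubeSimplex _ (faceMap m i.succ.castSucc t)) =
    par x.1 (cubeSimplex π (faceMap m i.succ.castSucc t))
  rw [cubeSimplex_swap]

theorem cube_face_zero {m : ℕ} (π : Equiv.Perm (Fin (m + 1))) (t : Simplex m)
    (j : Fin (m + 1)) :
    cubeSimplex π (faceMap m 0 t) j =
      ∑ k : Fin (m + 1), if ((π.symm j : Fin (m + 1)) : ℕ) ≤ (k : ℕ) then t.1 k else 0 := by
  unfold cubeSimplex
  rw [Fin.sum_univ_succ]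
  have h0 : (faceMap m 0 t).1 0 = 0 := by
    simp [faceMap]
  have h1 : ∀ k : Fin (m + 1), (faceMap m 0 t).1 k.succ = t.1 k := by
    intro k
    simp [faceMap]
  rw [h0]
  simp only [h1, Fin.val_succ, ite_self, zero_add, Nat.lt_succ_iff]

theorem cube_face_last {m : ℕ} (π : Equiv.Perm (Fin (m + 1))) (t : Simplex m)
    (j : Fin (m + 1)) :
    cubeSimplex π (faceMap m (Fin.last (m + 1)) t) j =
      ∑ k : Fin (m + 1), if ((π.symm j : Fin (m + 1)) : ℕ) < (k : ℕ) then t.1 k else 0 := by
  unfold cubeSimplex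
  rw [Fin.sum_univ_castSucc]
  have h0 : (faceMap m (Fin.last (m + 1)) t).1 (Fin.last (m + 1)) = 0 := by
    simp [faceMap]
  have h1 : ∀ k : Fin (m + 1), (faceMap m (Fin.last (m + 1)) t).1 k.castSucc = t.1 k := by
    intro k
    have := Fin.insertNth_apply_succAbove (α := fun _ => ℝ) (Fin.last (m + 1)) (0 : ℝ) t.1 k
    rw [Fin.succAbove_last] at this
    exact this
  rw [h0]
  simp only [h1, Fin.val_castSucc, ite_self, add_zero]

theorem face_rotate {m : ℕ} (f : (Fin (m + 1) → ℤ) →₀ ℂ) (x : Compl f)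
    (π : Equiv.Perm (Fin (m + 1))) :
    (torusSimplex f x (π * finRotate (m + 1))).comp (faceMap m (Fin.last (m + 1))) =
      (torusSimplex f x π).comp (faceMap m 0) := by
  ext1 t
  apply Subtype.ext
  funext j
  change Complex.exp ((x.1 j : ℂ) + 2 * Real.pi * Complex.I *
      ((cubeSimplex (π * finRotate (m + 1)) (faceMap m (Fin.last (m + 1)) t) j : ℝ) : ℂ)) =
    Complex.exp ((x.1 j : ℂ) + 2 * Real.pi * Complex.I *
      ((cubeSimplex π (faceMap m 0 t) j : ℝ) : ℂ))
  rw [cube_face_zero, cube_face_last]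
  have hs : (π * finRotate (m + 1)).symm j = (finRotate (m + 1)).symm (π.symm j) := by
    rw [Equiv.symm_apply_eq]
    simp
  rw [hs]
  rcases Fin.eq_zero_or_eq_succ (π.symm j) with h | ⟨q, h⟩
  · rw [h]
    have h2 : (finRotate (m + 1)).symm 0 = Fin.last m := by
      rw [Equiv.symm_apply_eq, finRotate_last]
    rw [h2]
    have h3 : (∑ k : Fin (m + 1), if ((Fin.last m : Fin (m + 1)) : ℕ) < (k : ℕ) then t.1 k else 0)
        = 0 := by
      apply Finset.sum_eq_zero
      intro k _
      rw [if_neg]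
      have := k.2
      simp only [Fin.val_last]
      omega
    have h4 : (∑ k : Fin (m + 1), if ((0 : Fin (m + 1)) : ℕ) ≤ (k : ℕ) then t.1 k else 0) = 1 := by
      simpa using t.2.2
    rw [h3, h4]
    simp only [Complex.ofReal_zero, mul_zero, add_zero, Complex.ofReal_one, mul_one]
    rw [Complex.exp_periodic]
  · obtain ⟨q', rfl⟩ : ∃ q' : Fin m, q = q' := ⟨q, rfl⟩
    rw [h]
    have h2 : (finRotate (m + 1)).symm q.succ = q.castSucc := by
      rw [Equiv.symm_apply_eq]
      exact (finRotate_of_lt q.2).symm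
    rw [h2]
    simp only [Fin.val_castSucc, Fin.val_succ, Nat.succ_le_iff]

theorem bdry_chainOf {X : Type} [TopologicalSpace X] {n : ℕ} (σ : Sing X (n + 1)) :
    bdry X n (chainOf σ) = bdryS σ := by
  unfold bdry chainOf
  have h := Finsupp.liftAddHom_apply_single (bdryZ (X := X) (n := n)) σ (1 : ℤ)
  refine h.trans ?_
  unfold bdryZ
  simp

/-- The torus chain is a cycle. -/
theorem bdry_torusChain {m : ℕ} (f : (Fin (m + 1) → ℤ) →₀ ℂ) (x : Compl f) :
    bdry (M f) m (torusChain f x) = 0 := by
  set G : Fin (m + 2) → Chain (M f) m := fun i =>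
    ∑ π : Equiv.Perm (Fin (m + 1)), (Equiv.Perm.sign π : ℤ) •
      chainOf ((torusSimplex f x π).comp (faceMap m i)) with hG
  have h1 : bdry (M f) m (torusChain f x) = ∑ i : Fin (m + 2), ((-1 : ℤ) ^ (i : ℕ)) • G i := by
    unfold torusChain
    rw [map_sum]
    simp only [map_zsmul, bdry_chainOf, bdryS, hG, Finset.smul_sum]
    rw [Finset.sum_comm]
    refine Finset.sum_congr rfl fun i _ => Finset.sum_congr rfl fun π _ => ?_
    rw [smul_comm]
  have h2 : ∀ i : Fin m, G i.succ.castSucc = 0 := by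
    intro i
    have hne : i.castSucc ≠ i.succ := by
      intro h
      have := congrArg Fin.val h
      simp at this
    refine Finset.sum_involution (fun π _ => π * Equiv.swap i.castSucc i.succ) ?_ ?_ ?_ ?_
    · intro π _
      rw [face_swap, ← add_smul, Equiv.Perm.sign_mul, Equiv.Perm.sign_swap hne]
      simp
    · intro π _ _ h
      have : Equiv.swap i.castSucc i.succ = 1 := by
        have h' : π * Equiv.swap i.castSucc i.succ = π * 1 := by rw [h, mul_one]
        exact mul_left_cancel h'
      rw [Equiv.swap_eq_one_iff] at this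
      exact hne this
    · intro π _
      exact Finset.mem_univ _
    · intro π _
      simp [mul_assoc]
  have h3 : G (Fin.last (m + 1)) = ((-1 : ℤ) ^ m) • G 0 := by
    rw [hG]
    simp only
    rw [← Equiv.sum_comp (Equiv.mulRight (finRotate (m + 1)))]
    rw [Finset.smul_sum]
    refine Finset.sum_congr rfl fun π _ => ?_
    rw [Equiv.coe_mulRight, face_rotate, Equiv.Perm.sign_mul, sign_finRotate, smul_smul]
    congr 1
    push_cast
    ring
  rw [h1, Fin.sum_univ_castSucc, Fin.sum_univ_succ, h3]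
  have h4 : ∑ i : Fin m, ((-1 : ℤ) ^ ((i.succ.castSucc : Fin (m + 2)) : ℕ)) • G i.succ.castSucc = 0 :=
    Finset.sum_eq_zero fun i _ => by rw [h2, smul_zero]
  rw [h4, add_zero]
  simp only [Fin.castSucc_zero, Fin.val_zero, pow_zero, one_smul, Fin.val_last, smul_smul]
  rw [pow_succ]
  have : (-1 : ℤ) ^ m * -1 * (-1 : ℤ) ^ m = -1 := by
    have : (-1 : ℤ) ^ m * (-1 : ℤ) ^ m = 1 := by
      rw [← mul_pow]; simp
    linear_combination (-1 : ℤ) * this
  rw [this]
  simp

end Pool.Agent.Helper947.Am

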