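import Pool.Agent.Helper947.Am.Defs
import Pool.Agent.Helper947.Am.Cycle

/-! The torus classes in singular homology. -/

namespace Pool.Agent.Helper947.Am

theorem torusChain_mem {d : ℕ} (f : (Fin d → ℤ) →₀ ℂ) (x : Compl f) :
    torusChain f x ∈ cycles (M f) d := by
  cases d with
  | zero => exact AddSubgroup.mem_top _
  | succ m => exact (AddMonoidHom.mem_ker).2 (bdry_torusChain f x)

/-- The torus chain as a cycle. -/
noncomputable def torusCycle {d : ℕ} (f : (Fin d → ℤ) →₀ ℂ) (x : Compl f) : cycles (M f) d :=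
  ⟨torusChain f x, torusChain_mem f x⟩

/-- The fundamental class `[T_x] ∈ H_d(M_f; ℤ)` of the torus `Log⁻¹(x)`, for `x` in the
complement of the amoeba of `f`. -/
noncomputable def torusClass {d : ℕ} (f : (Fin d → ℤ) →₀ ℂ) (x : Compl f) : Homology (M f) d :=
  homClass (torusCycle f x)

end Pool.Agent.Helper947.Am
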