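import Pool.Agent.Helper947.Am.Defs

/-! The collapse of the cube onto the simplex and its faces. -/

open scoped BigOperators

namespace Pool.Agent.Helper947.Am

/-- partial products -/
noncomputable def PP {n : ℕ} (s : Fin n → ℝ) (k : ℕ) : ℝ :=
  if k ≤ n then ∏ j : Fin n, (if (j : ℕ) < k then s j else 1) else 0

theorem PP_zero {n : ℕ} (s : Fin n → ℝ) : PP s 0 = 1 := by
  simp [PP]

theorem PP_top {n : ℕ} (s : Fin n → ℝ) : PP s (n + 1) = 0 := by
  simp [PP]

/-- the collapse map -/
noncomputable def coll {n : ℕ} (s : Fin n → ℝ) : Fin (n + 1) → ℝ :=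
  fun k => PP s k - PP s (k + 1)

theorem coll_sum {n : ℕ} (s : Fin n → ℝ) : ∑ k, coll s k = 1 := by
  unfold coll
  rw [Fin.sum_univ_eq_sum_range (fun k => PP s k - PP s (k + 1)) (n + 1),
    Finset.sum_range_sub', PP_zero, PP_top, sub_zero]

theorem PP_nonneg {n : ℕ} (s : Fin n → ℝ) (hs : ∀ i, 0 ≤ s i) (k : ℕ) : 0 ≤ PP s k := by
  unfold PP
  split_ifs
  · refine Finset.prod_nonneg fun j _ => ?_
    split_ifs
    · exact hs j
    · exact zero_le_one
  · exact le_rfl

theorem PP_succ_le {n : ℕ} (s : Fin n → ℝ) (hs : ∀ i, 0 ≤ s i) (hs1 : ∀ i, s i ≤ 1) (k : ℕ) :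
    PP s (k + 1) ≤ PP s k := by
  by_cases hk : k + 1 ≤ n
  · unfold PP
    rw [if_pos hk, if_pos (by omega)]
    refine Finset.prod_le_prod (fun j _ => ?_) (fun j _ => ?_)
    · split_ifs
      · exact hs j
      · exact zero_le_one
    · by_cases h1 : (j : ℕ) < k
      · rw [if_pos h1, if_pos (by omega)]
      · rw [if_neg h1]
        split_ifs
        · exact hs1 j
        · exact le_rfl
  · have : PP s (k + 1) = 0 := by unfold PP; rw [if_neg hk]
    rw [this]
    exact PP_nonneg s hs k

theorem coll_nonneg {n : ℕ} (s : Fin n → ℝ) (hs : ∀ i, 0 ≤ s i) (hs1 : ∀ i, s i ≤ 1)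
    (k : Fin (n + 1)) : 0 ≤ coll s k :=
  sub_nonneg.2 (PP_succ_le s hs hs1 k)

/-- clamp to `[0,1]` -/
noncomputable def cl (t : ℝ) : ℝ := max 0 (min 1 t)

theorem cl_nonneg (t : ℝ) : 0 ≤ cl t := le_max_left _ _
theorem cl_le_one (t : ℝ) : cl t ≤ 1 := max_le zero_le_one (min_le_left _ _)
theorem cl_of_mem {t : ℝ} (h0 : 0 ≤ t) (h1 : t ≤ 1) : cl t = t := by
  unfold cl; rw [min_eq_right h1, max_eq_right h0]
theorem cl_zero : cl 0 = 0 := cl_of_mem le_rfl zero_le_one
theorem cl_one : cl 1 = 1 := cl_of_mem zero_le_one le_rfl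
theorem continuous_cl : Continuous cl := continuous_const.max (continuous_const.min continuous_id)

theorem continuous_PP {n : ℕ} (k : ℕ) : Continuous fun s : Fin n → ℝ => PP s k := by
  unfold PP
  split_ifs
  · refine continuous_finsetProd _ fun j _ => ?_
    split_ifs
    · exact continuous_apply j
    · exact continuous_const
  · exact continuous_const

theorem continuous_coll {n : ℕ} : Continuous fun s : Fin n → ℝ => coll s :=
  continuous_pi fun k => (continuous_PP (k : ℕ)).sub (continuous_PP ((k : ℕ) + 1))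

/-- the collapse with values in the simplex -/
noncomputable def collS {n : ℕ} (s : Fin n → ℝ) : Simplex n :=
  ⟨coll (fun i => cl (s i)), fun k => coll_nonneg _ (fun _ => cl_nonneg _) (fun _ => cl_le_one _) k,
    coll_sum _⟩

theorem continuous_collS {n : ℕ} : Continuous fun s : Fin n → ℝ => collS s :=
  Continuous.subtype_mk (continuous_coll.comp (continuous_pi fun i =>
    continuous_cl.comp (continuous_apply i))) _

/-! partial products of an inserted vector -/

theorem PP_insertNth {n : ℕ} (i : Fin (n + 1)) (c : ℝ) (s : Fin n → ℝ) (k : ℕ) (hk : k ≤ n + 1) :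
    PP (i.insertNth (α := fun _ => ℝ) c s) k =
      if k ≤ i then PP s k else c * PP s (k - 1) := by
  unfold PP
  rw [if_pos hk, Fin.prod_univ_succAbove _ i]
  simp only [Fin.insertNth_apply_same, Fin.insertNth_apply_succAbove]
  have hi : (i : ℕ) ≤ n := by omega
  by_cases hki : k ≤ (i : ℕ)
  · rw [if_neg (by omega), one_mul, if_pos hki, if_pos (by omega)]
    refine Finset.prod_congr rfl fun j _ => ?_
    have : ((i.succAbove j : Fin (n + 1)) : ℕ) < k ↔ (j : ℕ) < k := by
      simp only [Fin.succAbove, Fin.lt_def, Fin.val_castSucc]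
      split_ifs
      · simp
      · simp only [Fin.val_succ]; omega
    simp only [this]
  · rw [if_pos (by omega), if_neg hki, if_pos (by omega)]
    congr 1
    refine Finset.prod_congr rfl fun j _ => ?_
    have : ((i.succAbove j : Fin (n + 1)) : ℕ) < k ↔ (j : ℕ) < k - 1 := by
      simp only [Fin.succAbove, Fin.lt_def, Fin.val_castSucc]
      split_ifs
      · simp only [Fin.val_castSucc]; omega
      · simp only [Fin.val_succ]; omega
    simp only [this]

theorem coll_insertNth_one {n : ℕ} (i : Fin (n + 1)) (s : Fin n → ℝ) :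
    coll (i.insertNth (α := fun _ => ℝ) 1 s) =
      (i.castSucc).insertNth (α := fun _ => ℝ) 0 (coll s) := by
  funext k
  induction k using Fin.succAboveCases i.castSucc with
  | x =>
    rw [Fin.insertNth_apply_same]
    unfold coll
    simp only [Fin.val_castSucc]
    have hi := i.2
    rw [PP_insertNth _ _ _ _ (by omega), PP_insertNth _ _ _ _ (by omega)]
    simp
  | p j =>
    rw [Fin.insertNth_apply_succAbove]
    unfold coll
    have hi := i.2
    have hj2 := j.2
    by_cases hj : j.castSucc < i.castSucc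
    · rw [Fin.succAbove_of_castSucc_lt _ _ hj]
      have hj' : (j : ℕ) < i := hj
      simp only [Fin.val_castSucc]
      rw [PP_insertNth _ _ _ _ (by omega), PP_insertNth _ _ _ _ (by omega)]
      rw [if_pos (by omega), if_pos (by omega)]
    · rw [Fin.succAbove_of_le_castSucc _ _ (not_lt.1 hj)]
      have hj' : (i : ℕ) ≤ j := not_lt.1 hj
      simp only [Fin.val_succ]
      rw [PP_insertNth _ _ _ _ (by omega)]
      rw [if_neg (by omega)]
      by_cases hjn : (j : ℕ) + 1 + 1 ≤ n + 1
      · rw [PP_insertNth _ _ _ _ hjn, if_neg (by omega)]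
        simp
      · have h1 : (j : ℕ) = n := by omega
        have h2 : PP (i.insertNth (α := fun _ => ℝ) 1 s) ((j : ℕ) + 1 + 1) = 0 := by
          unfold PP; rw [if_neg (by omega)]
        have h3 : PP s ((j : ℕ) + 1) = 0 := by
          unfold PP; rw [if_neg (by omega)]
        rw [h2, h3]
        simp

theorem coll_insertNth_last_zero {n : ℕ} (s : Fin n → ℝ) :
    coll ((Fin.last n).insertNth (α := fun _ => ℝ) 0 s) =
      (Fin.last (n + 1)).insertNth (α := fun _ => ℝ) 0 (coll s) := by
  funext k
  induction k using Fin.succAboveCases (Fin.last (n + 1)) with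
  | x =>
    rw [Fin.insertNth_apply_same]
    unfold coll
    simp only [Fin.val_last]
    rw [PP_top ((Fin.last n).insertNth (α := fun _ => ℝ) 0 s), PP_insertNth _ _ _ _ le_rfl,
      Fin.val_last, if_neg (by omega)]
    simp
  | p j =>
    rw [Fin.insertNth_apply_succAbove]
    unfold coll
    have hj2 := j.2
    rw [Fin.succAbove_last]
    simp only [Fin.val_castSucc]
    rw [PP_insertNth _ _ _ _ (by omega), PP_insertNth _ _ _ _ (by omega)]
    simp only [Fin.val_last]
    rw [if_pos (by omega)]
    by_cases hj : (j : ℕ) + 1 ≤ n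
    · rw [if_pos hj]
    · rw [if_neg hj, zero_mul]
      have : PP s ((j : ℕ) + 1) = 0 := by unfold PP; rw [if_neg hj]
      rw [this]

/-- if `i` is not the last index, the face `s_i = 0` of the collapse is degenerate -/
theorem coll_insertNth_zero_indep {n : ℕ} (i : Fin (n + 2)) (hi : i ≠ Fin.last (n + 1))
    (s : Fin (n + 1) → ℝ) (a : ℝ) :
    coll (i.insertNth (α := fun _ => ℝ) 0 (Function.update s (Fin.last n) a)) =
      coll (i.insertNth (α := fun _ => ℝ) 0 s) := by
  have hi' : (i : ℕ) < n + 1 := by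
    have := Fin.lt_last_iff_ne_last.2 hi
    simpa [Fin.lt_def] using this
  have key : ∀ k : ℕ, PP (i.insertNth (α := fun _ => ℝ) 0 (Function.update s (Fin.last n) a)) k =
      PP (i.insertNth (α := fun _ => ℝ) 0 s) k := by
    intro k
    by_cases hk : k ≤ n + 2
    · rw [PP_insertNth _ _ _ _ hk, PP_insertNth _ _ _ _ hk]
      by_cases hki : k ≤ (i : ℕ)
      · rw [if_pos hki, if_pos hki]
        unfold PP
        rw [if_pos (by omega), if_pos (by omega)]
        refine Finset.prod_congr rfl fun j _ => ?_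
        by_cases hjk : (j : ℕ) < k
        · rw [if_pos hjk, if_pos hjk, Function.update_of_ne]
          intro h
          rw [h, Fin.val_last] at hjk
          omega
        · rw [if_neg hjk, if_neg hjk]
      · rw [if_neg hki, if_neg hki, zero_mul, zero_mul]
    · unfold PP; rw [if_neg hk, if_neg hk]
  funext k
  unfold coll
  rw [key, key]

theorem cl_insertNth {n : ℕ} (i : Fin (n + 1)) (c : ℝ) (s : Fin n → ℝ) :
    (fun j => cl (i.insertNth (α := fun _ => ℝ) c s j)) =
      i.insertNth (α := fun _ => ℝ) (cl c) (fun j => cl (s j)) := by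
  funext j
  induction j using Fin.succAboveCases i with
  | x => simp
  | p j => simp

theorem collS_insertNth_one {n : ℕ} (i : Fin (n + 1)) (s : Fin n → ℝ) :
    collS (i.insertNth (α := fun _ => ℝ) 1 s) = faceMap n i.castSucc (collS s) := by
  apply Subtype.ext
  show coll (fun j => cl (i.insertNth (α := fun _ => ℝ) 1 s j)) = _
  rw [cl_insertNth, cl_one, coll_insertNth_one]
  rfl

theorem collS_insertNth_last_zero {n : ℕ} (s : Fin n → ℝ) :
    collS ((Fin.last n).insertNth (α := fun _ => ℝ) 0 s) =
      faceMap n (Fin.last (n + 1)) (collS s) := by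
  apply Subtype.ext
  show coll (fun j => cl ((Fin.last n).insertNth (α := fun _ => ℝ) 0 s j)) = _
  rw [cl_insertNth, cl_zero, coll_insertNth_last_zero]
  rfl

theorem collS_insertNth_zero_indep {n : ℕ} (i : Fin (n + 2)) (hi : i ≠ Fin.last (n + 1))
    (s : Fin (n + 1) → ℝ) (a : ℝ) :
    collS (i.insertNth (α := fun _ => ℝ) 0 (Function.update s (Fin.last n) a)) =
      collS (i.insertNth (α := fun _ => ℝ) 0 s) := by
  apply Subtype.ext
  show coll (fun j => cl (i.insertNth (α := fun _ => ℝ) 0 (Function.update s (Fin.last n) a) j)) =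
    coll (fun j => cl (i.insertNth (α := fun _ => ℝ) 0 s j))
  rw [cl_insertNth, cl_insertNth, cl_zero]
  have : (fun j => cl (Function.update s (Fin.last n) a j)) =
      Function.update (fun j => cl (s j)) (Fin.last n) (cl a) := by
    funext j
    by_cases hj : j = Fin.last n
    · subst hj; simp
    · rw [Function.update_of_ne hj, Function.update_of_ne hj]
  rw [this, coll_insertNth_zero_indep i hi]

/-- The cube in `F` attached to a singular simplex of a subset. -/
noncomputable def sq {n : ℕ} {F : Type} [TopologicalSpace F] {S : Set F}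
    (σ : C(Simplex n, S)) (s : Fin n → ℝ) : F := (σ (collS s)).1

theorem continuous_sq {n : ℕ} {F : Type} [TopologicalSpace F] {S : Set F}
    (σ : C(Simplex n, S)) : Continuous (sq σ) :=
  continuous_subtype_val.comp (σ.continuous.comp continuous_collS)

theorem sq_mem {n : ℕ} {F : Type} [TopologicalSpace F] {S : Set F}
    (σ : C(Simplex n, S)) (s : Fin n → ℝ) : sq σ s ∈ S := (σ (collS s)).2

/-- FACE lemma. -/
theorem face_sum {n : ℕ} {F : Type} [TopologicalSpace F] {S : Set F}
    (Ψ : ((Fin n → ℝ) → F) → ℂ)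
    (hΨ : ∀ (j : Fin n) (g : (Fin n → ℝ) → F), (∀ s a, g (Function.update s j a) = g s) → Ψ g = 0)
    (τ : C(Simplex (n + 1), S)) :
    ∑ i : Fin (n + 1), ((-1 : ℂ) ^ (i : ℕ)) *
      (Ψ (fun s => sq τ (i.insertNth (α := fun _ => ℝ) 1 s)) -
        Ψ (fun s => sq τ (i.insertNth (α := fun _ => ℝ) 0 s))) =
    ∑ i : Fin (n + 2), ((-1 : ℂ) ^ (i : ℕ)) * Ψ (sq (τ.comp (faceMap n i))) := by
  have h1 : ∀ i : Fin (n + 1), (fun s => sq τ (i.insertNth (α := fun _ => ℝ) 1 s)) =
      sq (τ.comp (faceMap n i.castSucc)) := by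
    intro i
    funext s
    unfold sq
    rw [collS_insertNth_one]
    rfl
  have h2 : (fun s => sq τ ((Fin.last n).insertNth (α := fun _ => ℝ) 0 s)) =
      sq (τ.comp (faceMap n (Fin.last (n + 1)))) := by
    funext s
    unfold sq
    rw [collS_insertNth_last_zero]
    rfl
  have h3 : ∀ i : Fin (n + 1), i ≠ Fin.last n →
      Ψ (fun s => sq τ (i.insertNth (α := fun _ => ℝ) 0 s)) = 0 := by
    intro i hi
    obtain ⟨m, rfl⟩ : ∃ m, n = m + 1 := by
      rcases n with _ | m
      · exact absurd (Subsingleton.elim (α := Fin 1) _ _) hi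
      · exact ⟨m, rfl⟩
    refine hΨ (Fin.last m) _ fun s a => ?_
    unfold sq
    rw [collS_insertNth_zero_indep i hi]
  rw [Fin.sum_univ_castSucc (n := n + 1)]
  simp only [mul_sub, Finset.sum_sub_distrib]
  have h4 : ∑ i : Fin (n + 1), (-1 : ℂ) ^ (i : ℕ) *
      Ψ (fun s => sq τ (i.insertNth (α := fun _ => ℝ) 0 s)) =
      (-1 : ℂ) ^ n * Ψ (sq (τ.comp (faceMap n (Fin.last (n + 1))))) := by
    rw [Finset.sum_eq_single (Fin.last n) (fun i _ hi => by rw [h3 i hi, mul_zero])
      (fun h => absurd (Finset.mem_univ _) h), h2, Fin.val_last]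
  rw [h4]
  simp only [h1, Fin.val_castSucc, Fin.val_last]
  rw [pow_succ]
  ring

end Pool.Agent.Helper947.Am
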