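import Mathlib

/-! The cube is the union of the simplices of its standard triangulation: integral version. -/

open MeasureTheory

namespace Pool.Agent.Helper947.Am

/-- The point whose `π(j)`-th coordinate is `s_0 s_1 ⋯ s_j`. -/
noncomputable def colPt {d : ℕ} (π : Equiv.Perm (Fin d)) (s : Fin d → ℝ) : Fin d → ℝ :=
  fun m => ∏ j : Fin d with j ≤ π.symm m, s j

private theorem J1238_null {n : ℕ} {i j : Fin n} (hij : i ≠ j) :
    volume {s : Fin n → ℝ | s i = s j} = 0 := by
  let L : (Fin n → ℝ) →ₗ[ℝ] ℝ := (LinearMap.proj i : (Fin n → ℝ) →ₗ[ℝ] ℝ) - LinearMap.proj j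
  have h1 : {s : Fin n → ℝ | s i = s j} = (LinearMap.ker L : Set (Fin n → ℝ)) := by
    ext s
    simp [L, sub_eq_zero]
  rw [h1]
  apply Measure.addHaar_submodule
  intro h
  have h2 : (Pi.single i 1 : Fin n → ℝ) ∈ LinearMap.ker L := by rw [h]; trivial
  simp [L, hij.symm] at h2

private theorem J1238_fub {d : ℕ} (h : (Fin (d + 1) → ℝ) → ℂ) (hh : Continuous h) :
    ∫ s in Set.Icc (0 : Fin (d + 1) → ℝ) 1, h s =
      ∫ a in Set.Icc (0 : ℝ) 1, ∫ w in Set.Icc (0 : Fin d → ℝ) 1, h (Fin.insertNth 0 a w) := by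
  have hp := volume_preserving_piFinSuccAbove (fun _ : Fin (d + 1) => ℝ) 0
  have h1 := hp.setIntegral_preimage_emb
    (MeasurableEquiv.measurableEmbedding (MeasurableEquiv.piFinSuccAbove (fun _ : Fin (d + 1) => ℝ) 0))
    (fun p : ℝ × (Fin d → ℝ) => h (Fin.insertNth 0 p.1 p.2))
    (Set.Icc (0 : ℝ) 1 ×ˢ Set.Icc (0 : Fin d → ℝ) 1)
  have h2 : (MeasurableEquiv.piFinSuccAbove (fun _ : Fin (d + 1) => ℝ) 0) ⁻¹'
      (Set.Icc (0 : ℝ) 1 ×ˢ Set.Icc (0 : Fin d → ℝ) 1) = Set.Icc (0 : Fin (d + 1) → ℝ) 1 := by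
    ext s
    simp only [Set.mem_preimage, Set.mem_prod, Set.mem_Icc, Pi.le_def,
      MeasurableEquiv.piFinSuccAbove_apply]
    constructor
    · rintro ⟨⟨a1, a2⟩, a3, a4⟩
      refine ⟨fun i => ?_, fun i => ?_⟩
      · refine Fin.cases a1 (fun j => a3 j) i
      · refine Fin.cases a2 (fun j => a4 j) i
    · rintro ⟨a1, a2⟩
      exact ⟨⟨a1 0, a2 0⟩, fun j => a1 _, fun j => a2 _⟩
  rw [h2] at h1
  have h3 : ∀ s : Fin (d + 1) → ℝ, (fun p : ℝ × (Fin d → ℝ) => h (Fin.insertNth 0 p.1 p.2))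
      (MeasurableEquiv.piFinSuccAbove (fun _ : Fin (d + 1) => ℝ) 0 s) = h s := by
    intro s
    show h (Fin.insertNth 0 (s 0) (fun j => s (Fin.succAbove 0 j))) = h s
    congr 1
    exact Fin.insertNth_self_removeNth 0 s
  simp only [h3] at h1
  rw [h1, Measure.volume_eq_prod, setIntegral_prod]
  refine ContinuousOn.integrableOn_compact (isCompact_Icc.prod isCompact_Icc) ?_
  refine (hh.comp ?_).continuousOn
  fun_prop

open scoped Pointwise in
private theorem J1238_icc {d : ℕ} {a : ℝ} (ha : 0 < a) :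
    a • Set.Icc (0 : Fin d → ℝ) 1 = Set.Icc (0 : Fin d → ℝ) (fun _ => a) := by
  ext w
  rw [Set.mem_smul_set_iff_inv_smul_mem₀ ha.ne']
  simp only [Set.mem_Icc, Pi.le_def, Pi.zero_apply, Pi.smul_apply, smul_eq_mul, Pi.one_apply]
  refine and_congr (forall_congr' fun i => ?_) (forall_congr' fun i => ?_)
  · constructor
    · intro h
      by_contra hcon
      push Not at hcon
      have := mul_neg_of_pos_of_neg (inv_pos.2 ha) hcon
      linarith
    · intro h; positivity
  · rw [inv_mul_le_iff₀ ha, mul_one]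

open scoped Pointwise in
private theorem J1238_scale {d : ℕ} {a : ℝ} (ha : 0 < a) (F : (Fin d → ℝ) → ℂ) :
    ∫ w in Set.Icc (0 : Fin d → ℝ) (fun _ => a), F w =
      (a : ℂ) ^ d * ∫ w in Set.Icc (0 : Fin d → ℝ) 1, F (a • w) := by
  have := Measure.setIntegral_comp_smul_of_pos (volume : Measure (Fin d → ℝ)) F (Set.Icc 0 1) ha
  rw [this, J1238_icc ha]
  simp only [Module.finrank_fintype_fun_eq_card, Fintype.card_fin]
  rw [Complex.real_smul]
  push_cast
  rw [← mul_assoc, mul_inv_cancel₀ (pow_ne_zero _ (by exact_mod_cast ha.ne')), one_mul]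

private theorem J1238_part {d : ℕ} (m : Fin (d + 1)) (G : (Fin (d + 1) → ℝ) → ℂ)
    (hG : Continuous G) :
    ∫ s in Set.Icc (0 : Fin (d + 1) → ℝ) 1 ∩ {s | ∀ i, s i ≤ s m}, G s =
      ∫ a in Set.Icc (0 : ℝ) 1, (a : ℂ) ^ d *
        ∫ w in Set.Icc (0 : Fin d → ℝ) 1, G (m.insertNth a (a • w)) := by
  have hp := volume_preserving_piFinSuccAbove (fun _ : Fin (d + 1) => ℝ) m
  set S : Set (ℝ × (Fin d → ℝ)) := {p | p.1 ∈ Set.Icc (0 : ℝ) 1 ∧ p.2 ∈ Set.Icc 0 (fun _ => p.1)}
    with hS
  have hcS : IsCompact S := by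
    have h1 : IsCompact (Set.Icc (0 : ℝ) 1 ×ˢ Set.Icc (0 : Fin d → ℝ) 1) :=
      isCompact_Icc.prod isCompact_Icc
    refine h1.of_isClosed_subset ?_ ?_
    · have : S = {p | p.1 ∈ Set.Icc (0 : ℝ) 1} ∩ ⋂ i, {p | 0 ≤ p.2 i ∧ p.2 i ≤ p.1} := by
        ext p
        simp [hS, Pi.le_def, forall_and]
      rw [this]
      refine (isClosed_Icc.preimage continuous_fst).inter (isClosed_iInter fun i => ?_)
      have c1 : IsClosed {p : ℝ × (Fin d → ℝ) | 0 ≤ p.2 i} :=
        isClosed_le continuous_const (by fun_prop)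
      have c2 : IsClosed {p : ℝ × (Fin d → ℝ) | p.2 i ≤ p.1} :=
        isClosed_le (by fun_prop) (by fun_prop)
      exact c1.inter c2
    · rintro p ⟨h1, h2, h3⟩
      exact ⟨h1, h2, fun i => (h3 i).trans h1.2⟩
  have h1 := hp.setIntegral_preimage_emb
    (MeasurableEquiv.measurableEmbedding (MeasurableEquiv.piFinSuccAbove (fun _ : Fin (d + 1) => ℝ) m))
    (fun p : ℝ × (Fin d → ℝ) => G (Fin.insertNth m p.1 p.2)) S
  have h2 : (MeasurableEquiv.piFinSuccAbove (fun _ : Fin (d + 1) => ℝ) m) ⁻¹' S =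
      Set.Icc (0 : Fin (d + 1) → ℝ) 1 ∩ {s | ∀ i, s i ≤ s m} := by
    ext s
    constructor
    · rintro ⟨⟨a1, a2⟩, a3, a4⟩
      have b3 : ∀ i, 0 ≤ s i := fun i => Fin.succAboveCases m a1 (fun j => a3 j) i
      have b4 : ∀ i, s i ≤ s m := fun i => Fin.succAboveCases m le_rfl (fun j => a4 j) i
      exact ⟨⟨b3, fun i => (b4 i).trans a2⟩, b4⟩
    · rintro ⟨⟨a1, a2⟩, a3⟩
      exact ⟨⟨a1 m, a2 m⟩, fun j => a1 _, fun j => a3 _⟩
  rw [h2] at h1
  have h3 : ∀ s : Fin (d + 1) → ℝ, (fun p : ℝ × (Fin d → ℝ) => G (Fin.insertNth m p.1 p.2))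
      (MeasurableEquiv.piFinSuccAbove (fun _ : Fin (d + 1) => ℝ) m s) = G s := by
    intro s
    show G (Fin.insertNth m (s m) (fun j => s (Fin.succAbove m j))) = G s
    congr 1
    exact Fin.insertNth_self_removeNth m s
  simp only [h3] at h1
  rw [h1, ← integral_indicator hcS.measurableSet, Measure.volume_eq_prod, integral_prod]
  · rw [← integral_indicator measurableSet_Icc]
    refine integral_congr_ae ?_
    have h0 : ∀ᵐ a : ℝ, a ≠ 0 := by
      simp [ae_iff]
    filter_upwards [h0] with a ha0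
    by_cases ha : a ∈ Set.Icc (0 : ℝ) 1
    · rw [Set.indicator_of_mem ha]
      have ha1 : 0 < a := lt_of_le_of_ne ha.1 (Ne.symm ha0)
      rw [← J1238_scale ha1 (fun w => G (m.insertNth a w)), ← integral_indicator measurableSet_Icc]
      refine integral_congr_ae (Filter.Eventually.of_forall fun w => ?_)
      show S.indicator (fun y : ℝ × (Fin d → ℝ) => G (m.insertNth y.1 y.2)) (a, w) = _
      by_cases hw : w ∈ Set.Icc (0 : Fin d → ℝ) (fun _ => a)
      · rw [Set.indicator_of_mem hw, Set.indicator_of_mem (show (a, w) ∈ S from ⟨ha, hw⟩)]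
      · rw [Set.indicator_of_notMem hw, Set.indicator_of_notMem (fun h : (a, w) ∈ S => hw h.2)]
    · rw [Set.indicator_of_notMem ha]
      rw [← integral_zero (Fin d → ℝ) ℂ]
      refine integral_congr_ae (Filter.Eventually.of_forall fun w => ?_)
      exact Set.indicator_of_notMem (fun h : (a, w) ∈ S => ha h.1) _
  · rw [integrable_indicator_iff hcS.measurableSet]
    refine ContinuousOn.integrableOn_compact hcS ?_
    refine (hG.comp ?_).continuousOn
    fun_prop

private theorem J1238_split {d : ℕ} (G : (Fin (d + 1) → ℝ) → ℂ) (hG : Continuous G) :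
    ∫ s in Set.Icc (0 : Fin (d + 1) → ℝ) 1, G s =
      ∑ m : Fin (d + 1), ∫ s in Set.Icc (0 : Fin (d + 1) → ℝ) 1 ∩ {s | ∀ i, s i ≤ s m}, G s := by
  have hcl : ∀ m : Fin (d + 1), IsClosed {s : Fin (d + 1) → ℝ | ∀ i, s i ≤ s m} := by
    intro m
    have : {s : Fin (d + 1) → ℝ | ∀ i, s i ≤ s m} = ⋂ i, {s | s i ≤ s m} := by
      ext s; simp
    rw [this]
    exact isClosed_iInter fun i => isClosed_le (by fun_prop) (by fun_prop)
  have hU : Set.Icc (0 : Fin (d + 1) → ℝ) 1 =
      ⋃ m : Fin (d + 1), Set.Icc (0 : Fin (d + 1) → ℝ) 1 ∩ {s | ∀ i, s i ≤ s m} := by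
    ext s
    simp only [Set.mem_iUnion, Set.mem_inter_iff, Set.mem_ofPred_eq]
    constructor
    · intro h
      obtain ⟨m, -, hm⟩ := Finset.exists_max_image Finset.univ s ⟨0, Finset.mem_univ _⟩
      exact ⟨m, h, fun i => hm i (Finset.mem_univ _)⟩
    · rintro ⟨m, h, -⟩
      exact h
  conv_lhs => rw [hU]
  rw [integral_iUnion_ae, tsum_fintype]
  · intro m
    exact (measurableSet_Icc.inter (hcl m).measurableSet).nullMeasurableSet
  · intro m m' hmm
    refine measure_mono_null ?_ (J1238_null hmm)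
    rintro s ⟨⟨-, h1⟩, ⟨-, h2⟩⟩
    exact le_antisymm (h2 m) (h1 m')
  · rw [← hU]
    exact hG.continuousOn.integrableOn_compact isCompact_Icc

private def J1238_perm {d : ℕ} (p : Fin (d + 1) × Equiv.Perm (Fin d)) : Equiv.Perm (Fin (d + 1)) :=
  (finSuccEquiv' 0).trans ((Equiv.optionCongr p.2).trans (finSuccEquiv' p.1).symm)

private theorem J1238_perm_zero {d : ℕ} (p : Fin (d + 1) × Equiv.Perm (Fin d)) :
    J1238_perm p 0 = p.1 := by
  simp [J1238_perm]

private theorem J1238_perm_succ {d : ℕ} (p : Fin (d + 1) × Equiv.Perm (Fin d)) (i : Fin d) :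
    J1238_perm p i.succ = p.1.succAbove (p.2 i) := by
  have : i.succ = (0 : Fin (d + 1)).succAbove i := by simp
  rw [this]
  simp only [J1238_perm, Equiv.trans_apply, finSuccEquiv'_succAbove, Equiv.optionCongr_apply,
    Option.map_some, finSuccEquiv'_symm_some]

private theorem J1238_bij (d : ℕ) :
    Function.Bijective (J1238_perm : Fin (d + 1) × Equiv.Perm (Fin d) → Equiv.Perm (Fin (d + 1))) := by
  rw [Fintype.bijective_iff_injective_and_card]
  constructor
  · rintro ⟨m, ρ⟩ ⟨m', ρ'⟩ h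
    have h0 : m = m' := by
      have := congrArg (fun e : Equiv.Perm (Fin (d + 1)) => e 0) h
      simpa only [J1238_perm_zero] using this
    subst h0
    refine Prod.ext rfl (Equiv.ext fun i => ?_)
    have := congrArg (fun e : Equiv.Perm (Fin (d + 1)) => e i.succ) h
    simp only [J1238_perm_succ] at this
    exact Fin.succAbove_right_injective this
  · rw [Fintype.card_prod, Fintype.card_perm, Fintype.card_perm, Fintype.card_fin,
      Fintype.card_fin, Nat.factorial_succ]

private theorem J1238_col {d : ℕ} (m : Fin (d + 1)) (ρ : Equiv.Perm (Fin d)) (a : ℝ)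
    (s : Fin d → ℝ) :
    colPt (J1238_perm (m, ρ)) (Fin.insertNth 0 a s) = m.insertNth a (a • colPt ρ s) := by
  have hs0 : (J1238_perm (m, ρ)).symm m = 0 := by
    rw [Equiv.symm_apply_eq, J1238_perm_zero]
  have hs1 : ∀ i : Fin d, (J1238_perm (m, ρ)).symm (m.succAbove i) = (ρ.symm i).succ := by
    intro i
    rw [Equiv.symm_apply_eq, J1238_perm_succ, Equiv.apply_symm_apply]
  funext k
  refine Fin.succAboveCases m ?_ (fun i => ?_) k
  · rw [Fin.insertNth_apply_same]
    simp only [colPt, hs0]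
    rw [Finset.prod_filter, Fin.prod_univ_succ]
    simp
  · rw [Fin.insertNth_apply_succAbove]
    simp only [colPt, hs1, Pi.smul_apply, smul_eq_mul]
    rw [Finset.prod_filter, Fin.prod_univ_succ, Finset.prod_filter]
    simp

private theorem J1238_colCont {d : ℕ} (π : Equiv.Perm (Fin d)) : Continuous (colPt π) := by
  refine continuous_pi fun m => ?_
  exact continuous_finsetProd _ fun j _ => continuous_apply j

/-- TARGET: the integral over the cube is the sum over all permutations `π` of the integrals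
over the simplices `1 ≥ u_{π 0} ≥ u_{π 1} ≥ … ≥ 0`, parametrised by the cube through
`u_{π j} = s_0 ⋯ s_j` (Jacobian `∏ s_j^(d-1-j)`). -/
theorem integral_cube_eq_sum {d : ℕ} (G : (Fin d → ℝ) → ℂ) (hG : Continuous G) :
    ∫ s in Set.Icc (0 : Fin d → ℝ) 1, G s =
      ∑ π : Equiv.Perm (Fin d), ∫ s in Set.Icc (0 : Fin d → ℝ) 1,
        ((∏ j : Fin d, s j ^ (d - 1 - (j : ℕ)) : ℝ) : ℂ) * G (colPt π s) := by
  induction d with
  | zero =>
    rw [Fintype.sum_unique]
    refine setIntegral_congr_fun measurableSet_Icc fun s _ => ?_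
    have : ∀ π : Equiv.Perm (Fin 0), colPt π s = s := fun π => Subsingleton.elim _ _
    simp [this]
  | succ d ih =>
    rw [J1238_split G hG, ← Function.Bijective.sum_comp (J1238_bij d), Fintype.sum_prod_type]
    refine Finset.sum_congr rfl fun m _ => ?_
    rw [J1238_part m G hG]
    have h1 : ∀ a : ℝ, ∫ w in Set.Icc (0 : Fin d → ℝ) 1, G (m.insertNth a (a • w)) =
        ∑ ρ : Equiv.Perm (Fin d), ∫ s in Set.Icc (0 : Fin d → ℝ) 1,
          ((∏ j : Fin d, s j ^ (d - 1 - (j : ℕ)) : ℝ) : ℂ) *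
            G (m.insertNth a (a • colPt ρ s)) := by
      intro a
      refine ih (fun w => G (m.insertNth a (a • w))) (hG.comp ?_)
      fun_prop
    simp only [h1, Finset.mul_sum]
    rw [integral_finsetSum]
    · refine Finset.sum_congr rfl fun ρ _ => ?_
      have hcc : Continuous fun s : Fin (d + 1) → ℝ =>
          ((∏ j : Fin (d + 1), s j ^ (d + 1 - 1 - (j : ℕ)) : ℝ) : ℂ) *
            G (colPt (J1238_perm (m, ρ)) s) := by
        refine Continuous.mul ?_ (hG.comp (J1238_colCont _))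
        fun_prop
      rw [J1238_fub _ hcc]
      refine setIntegral_congr_fun measurableSet_Icc fun a _ => ?_
      rw [← integral_const_mul]
      refine setIntegral_congr_fun measurableSet_Icc fun s _ => ?_
      rw [J1238_col, ← mul_assoc]
      congr 1
      rw [Fin.prod_univ_succ]
      simp only [Fin.insertNth_zero', Fin.cons_zero, Fin.cons_succ, Fin.val_zero, Fin.val_succ]
      have h2 : ∀ j : Fin d, d + 1 - 1 - ((j : ℕ) + 1) = d - 1 - (j : ℕ) := by
        intro j; omega
      simp only [h2]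
      push_cast
      simp
    · intro ρ _
      refine ContinuousOn.integrableOn_compact isCompact_Icc (Continuous.continuousOn ?_)
      refine Continuous.mul (by fun_prop) ?_
      refine continuous_parametric_integral_of_continuous ?_ isCompact_Icc
      have hc := J1238_colCont ρ
      refine Continuous.mul (by fun_prop) (hG.comp ?_)
      fun_prop

end Pool.Agent.Helper947.Am
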