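import Pool.Agent.Helper947.Am.Torus

/-! Decay of Laurent coefficients of analytic functions near a torus. -/

open MeasureTheory Filter Topology

namespace Pool.Agent.Helper947.Am


theorem E_cont {d : ℕ} (x : Fin d → ℝ) : Continuous (E x) := by
  refine continuous_pi fun j => ?_
  exact continuous_const.mul (continuous_subtype_val.comp
    (AddCircle.continuous_toCircle.comp (continuous_apply j)))

theorem norm_E {d : ℕ} (x : Fin d → ℝ) (φ : UnitAddTorus (Fin d)) (j : Fin d) :
    ‖E x φ j‖ = Real.exp (x j) := by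
  unfold E
  rw [norm_mul, Circle.norm_coe, mul_one, Complex.norm_real, Real.norm_eq_abs,
    abs_of_pos (Real.exp_pos _)]

theorem E_ne {d : ℕ} (x : Fin d → ℝ) (φ : UnitAddTorus (Fin d)) (j : Fin d) :
    E x φ j ≠ 0 := by
  rw [← norm_pos_iff, norm_E]
  exact Real.exp_pos _

theorem E_shift {d : ℕ} (x : Fin d → ℝ) (φ : UnitAddTorus (Fin d)) (i : Fin d) (s : ℝ) (j : Fin d) :
    E x (φ + Pi.single i (s : UnitAddCircle)) j =
      if j = i then E x φ j * Complex.exp (2 * Real.pi * Complex.I * s) else E x φ j := by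
  unfold E
  by_cases hj : j = i
  · subst hj
    simp only [Pi.add_apply, Pi.single_eq_same, if_true]
    rw [AddCircle.toCircle_add, AddCircle.toCircle_apply_mk, Circle.coe_mul, Circle.coe_exp]
    have h1 : (2 * Real.pi / 1 * s : ℝ) * Complex.I = 2 * Real.pi * Complex.I * (s : ℂ) := by
      push_cast
      ring
    rw [h1]
    ring
  · simp [hj]

theorem E_shift_deriv {d : ℕ} (x : Fin d → ℝ) (φ : UnitAddTorus (Fin d)) (i : Fin d) (s : ℝ) :
    HasDerivAt (fun s : ℝ => E x (φ + Pi.single i (s : UnitAddCircle)))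
      (Pi.single i (2 * Real.pi * Complex.I * E x (φ + Pi.single i (s : UnitAddCircle)) i)) s := by
  rw [hasDerivAt_pi]
  intro j
  by_cases hj : j = i
  · subst hj
    have h1 : (fun s : ℝ => E x (φ + Pi.single j (s : UnitAddCircle)) j) =
        fun s : ℝ => E x φ j * Complex.exp (2 * Real.pi * Complex.I * s) := by
      funext s
      rw [E_shift, if_pos rfl]
    rw [h1, E_shift, if_pos rfl, Pi.single_eq_same]
    have h2 : HasDerivAt (fun s : ℝ => (s : ℂ)) 1 s := by
      exact Complex.ofRealCLM.hasDerivAt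
    have h3 := ((h2.const_mul (2 * Real.pi * Complex.I)).cexp).const_mul (E x φ j)
    exact h3.congr_deriv (by ring)
  · have h1 : (fun s : ℝ => E x (φ + Pi.single i (s : UnitAddCircle)) j) =
        fun s : ℝ => E x φ j := by
      funext s
      rw [E_shift, if_neg hj]
    rw [h1, Pi.single_eq_of_ne hj]
    exact hasDerivAt_const _ _

/-- The Euler field. -/
noncomputable def th {d : ℕ} (i : Fin d) (h : (Fin d → ℂ) → ℂ) (z : Fin d → ℂ) : ℂ :=
  z i * fderiv ℂ h z (Pi.single i 1)

theorem th_analytic {d : ℕ} (i : Fin d) {U : Set (Fin d → ℂ)}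
    {h : (Fin d → ℂ) → ℂ} (hh : AnalyticOnNhd ℂ h U) : AnalyticOnNhd ℂ (th i h) U := by
  intro z hz
  have h1 : AnalyticAt ℂ (fderiv ℂ h) z := (hh z hz).fderiv
  have h2 : AnalyticAt ℂ (fun z : Fin d → ℂ => z i) z :=
    (ContinuousLinearMap.proj (R := ℂ) (φ := fun _ : Fin d => ℂ) i).analyticAt z
  have h3 : AnalyticAt ℂ (fun z => fderiv ℂ h z (Pi.single i 1)) z :=
    ((ContinuousLinearMap.apply ℂ ℂ (Pi.single i (1:ℂ) : Fin d → ℂ)).analyticAt _).comp h1
  exact h2.mul h3

/-- The monomial. -/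
noncomputable def mo {d : ℕ} (α : Fin d → ℤ) (z : Fin d → ℂ) : ℂ := ∏ i, z i ^ (-α i)

theorem mo_shift {d : ℕ} (α : Fin d → ℤ) (x : Fin d → ℝ) (φ : UnitAddTorus (Fin d)) (i : Fin d)
    (s : ℝ) : mo α (E x (φ + Pi.single i (s : UnitAddCircle))) =
      mo α (E x φ) * Complex.exp (-(2 * Real.pi * Complex.I * α i) * s) := by
  unfold mo
  rw [← Finset.mul_prod_erase Finset.univ _ (Finset.mem_univ i),
    ← Finset.mul_prod_erase Finset.univ (fun j => E x φ j ^ (-α j)) (Finset.mem_univ i)]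
  rw [E_shift, if_pos rfl, mul_zpow, ← Complex.exp_int_mul]
  have h1 : ∏ j ∈ Finset.univ.erase i, E x (φ + Pi.single i (s : UnitAddCircle)) j ^ (-α j) =
      ∏ j ∈ Finset.univ.erase i, E x φ j ^ (-α j) := by
    refine Finset.prod_congr rfl fun j hj => ?_
    rw [E_shift, if_neg (Finset.ne_of_mem_erase hj)]
  rw [h1]
  have h2 : ((-α i : ℤ) : ℂ) * (2 * Real.pi * Complex.I * s) =
      -(2 * Real.pi * Complex.I * α i) * s := by
    push_cast
    ring
  rw [h2]
  ring

theorem mo_norm {d : ℕ} (α : Fin d → ℤ) (x : Fin d → ℝ) (φ : UnitAddTorus (Fin d)) :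
    ‖mo α (E x φ)‖ * Real.exp (∑ i, (α i : ℝ) * x i) = 1 := by
  unfold mo
  rw [norm_prod, Real.exp_sum, ← Finset.prod_mul_distrib]
  refine Finset.prod_eq_one fun i _ => ?_
  have h1 : Real.exp ((α i : ℝ) * x i) = Real.exp (x i) ^ (α i) := by
    rw [mul_comm, Real.exp_mul, Real.rpow_intCast]
  rw [norm_zpow, norm_E, zpow_neg, h1]
  exact inv_mul_cancel₀ (zpow_ne_zero _ (Real.exp_pos _).ne')

theorem mo_cont {d : ℕ} (α : Fin d → ℤ) (x : Fin d → ℝ) :
    Continuous (fun φ => mo α (E x φ)) := by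
  unfold mo
  refine continuous_finsetProd _ fun i _ => ?_
  exact ((continuous_apply i).comp (E_cont x)).zpow₀ _ fun φ => Or.inl (E_ne x φ i)

theorem comp_cont {d : ℕ} {U : Set (Fin d → ℂ)} {x : Fin d → ℝ}
    (hx : ∀ φ, E x φ ∈ U) {h : (Fin d → ℂ) → ℂ} (hh : AnalyticOnNhd ℂ h U) :
    Continuous (fun φ => h (E x φ)) :=
  hh.continuousOn.comp_continuous (E_cont x) hx

theorem key {d : ℕ} {U : Set (Fin d → ℂ)} {x : Fin d → ℝ}
    (hx : ∀ φ, E x φ ∈ U) {h : (Fin d → ℂ) → ℂ} (hh : AnalyticOnNhd ℂ h U)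
    (α : Fin d → ℤ) (i : Fin d) :
    (α i : ℂ) * CT x (fun z => mo α z * h z) = CT x (fun z => mo α z * th i h z) := by
  have hc1 := comp_cont hx hh
  have hc2 := comp_cont hx (th_analytic i hh)
  have hcm := mo_cont α x
  -- the derivative in the shift
  obtain ⟨G, hG⟩ : ∃ G : ℝ → UnitAddTorus (Fin d) → ℂ, G = fun (s : ℝ) φ =>
      mo α (E x (φ + Pi.single i (s : UnitAddCircle))) *
        h (E x (φ + Pi.single i (s : UnitAddCircle))) := ⟨_, rfl⟩
  obtain ⟨G', hG'⟩ : ∃ G' : UnitAddTorus (Fin d) → ℂ, G' = fun φ =>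
      2 * Real.pi * Complex.I * (mo α (E x φ) * th i h (E x φ)
        - (α i : ℂ) * (mo α (E x φ) * h (E x φ))) := ⟨_, rfl⟩
  have hG'c : Continuous G' := by
    rw [hG']
    exact continuous_const.mul ((hcm.mul hc2).sub (continuous_const.mul (hcm.mul hc1)))
  have hder : ∀ (s : ℝ) φ, HasDerivAt (fun s => G s φ) (G' (φ + Pi.single i (s : UnitAddCircle))) s := by
    intro s φ
    rw [hG, hG']
    have h1 : HasDerivAt (fun s : ℝ => h (E x (φ + Pi.single i (s : UnitAddCircle))))
        (2 * Real.pi * Complex.I * th i h (E x (φ + Pi.single i (s : UnitAddCircle)))) s := by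
      have h2 : HasFDerivAt h ((fderiv ℂ h (E x (φ + Pi.single i (s : UnitAddCircle)))).restrictScalars ℝ)
          (E x (φ + Pi.single i (s : UnitAddCircle))) :=
        ((hh _ (hx _)).differentiableAt.hasFDerivAt).restrictScalars ℝ
      have h3 := h2.comp_hasDerivAt s (E_shift_deriv x φ i s)
      refine h3.congr_deriv ?_
      unfold th
      simp only [ContinuousLinearMap.coe_restrictScalars']
      obtain ⟨c, hc⟩ : ∃ c, c = E x (φ + Pi.single i (s : UnitAddCircle)) i := ⟨_, rfl⟩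
      rw [← hc]
      have h4 : (Pi.single i (2 * Real.pi * Complex.I * c) : Fin d → ℂ) =
          (2 * Real.pi * Complex.I * c) • (Pi.single i (1:ℂ) : Fin d → ℂ) := by
        rw [← Pi.single_smul]
        simp
      rw [h4, map_smul, smul_eq_mul]
      ring
    have h5 : HasDerivAt (fun s : ℝ => mo α (E x (φ + Pi.single i (s : UnitAddCircle))))
        (-(2 * Real.pi * Complex.I * α i) * mo α (E x (φ + Pi.single i (s : UnitAddCircle)))) s := by
      have h6 : (fun s : ℝ => mo α (E x (φ + Pi.single i (s : UnitAddCircle)))) =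
          fun s : ℝ => mo α (E x φ) * Complex.exp (-(2 * Real.pi * Complex.I * α i) * s) := by
        funext s
        rw [mo_shift]
      rw [h6, mo_shift]
      have h2 : HasDerivAt (fun s : ℝ => (s : ℂ)) 1 s := Complex.ofRealCLM.hasDerivAt
      have h3 := ((h2.const_mul (-(2 * Real.pi * Complex.I * α i))).cexp).const_mul (mo α (E x φ))
      exact h3.congr_deriv (by ring)
    have h7 := h5.mul h1
    exact h7.congr_deriv (by ring)
  have hGc : Continuous (G 0) := by
    rw [hG]
    simp only [AddCircle.coe_zero, Pi.single_zero, add_zero]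
    exact hcm.mul hc1
  have hGs : ∀ (s : ℝ) φ, G s φ = G 0 (φ + Pi.single i (s : UnitAddCircle)) := by
    intro s φ
    rw [hG]
    simp
  have hGcs : ∀ (s : ℝ), Continuous (G s) := by
    intro s
    have : G s = fun φ => G 0 (φ + Pi.single i (s : UnitAddCircle)) := by
      funext φ; exact hGs s φ
    rw [this]
    exact hGc.comp (continuous_id.add continuous_const)
  obtain ⟨M, hM⟩ : ∃ M, ∀ φ, ‖G' φ‖ ≤ M := by
    obtain ⟨M, hM⟩ := isCompact_univ.exists_bound_of_continuousOn (f := G') hG'c.continuousOn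
    exact ⟨M, fun φ => hM φ (Set.mem_univ _)⟩
  have hmain := hasDerivAt_integral_of_dominated_loc_of_deriv_le (μ := (volume : Measure (UnitAddTorus (Fin d))))
    (F := G) (F' := fun (s : ℝ) φ => G' (φ + Pi.single i (s : UnitAddCircle))) (x₀ := (0:ℝ))
    (s := Set.univ) (bound := fun _ => M) Filter.univ_mem
    (Filter.Eventually.of_forall fun s => (hGcs s).aestronglyMeasurable)
    (hGc.integrable_of_hasCompactSupport (HasCompactSupport.of_compactSpace _))
    (by simpa using hG'c.aestronglyMeasurable)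
    (ae_of_all _ fun φ s _ => hM _) (integrable_const _)
    (ae_of_all _ fun φ s _ => hder s φ)
  have hconst : (fun s : ℝ => ∫ φ, G s φ) = fun _ => ∫ φ, G 0 φ := by
    funext s
    have : G s = fun φ => G 0 (φ + Pi.single i (s : UnitAddCircle)) := by
      funext φ; exact hGs s φ
    rw [this]
    exact integral_add_right_eq_self (G 0) _
  rw [hconst] at hmain
  have h0 := hmain.2.unique (hasDerivAt_const (0:ℝ) _)
  simp only [AddCircle.coe_zero, Pi.single_zero, add_zero] at h0
  rw [hG'] at h0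
  simp only at h0
  rw [integral_const_mul, integral_sub, integral_const_mul] at h0
  · have hpi : (2 * (Real.pi : ℂ) * Complex.I) ≠ 0 := by
      simp [Real.pi_ne_zero, Complex.I_ne_zero]
    have h8 := (mul_eq_zero.1 h0).resolve_left hpi
    unfold CT
    exact (sub_eq_zero.1 h8).symm
  · exact (hcm.mul hc2).integrable_of_hasCompactSupport (HasCompactSupport.of_compactSpace _)
  · exact (continuous_const.mul (hcm.mul hc1)).integrable_of_hasCompactSupport
      (HasCompactSupport.of_compactSpace _)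

theorem iterate {d : ℕ} {U : Set (Fin d → ℂ)} {x : Fin d → ℝ}
    (hx : ∀ φ, E x φ ∈ U) {h : (Fin d → ℂ) → ℂ} (hh : AnalyticOnNhd ℂ h U)
    (s : Finset (Fin d)) : ∃ H : (Fin d → ℂ) → ℂ, AnalyticOnNhd ℂ H U ∧ ∀ α : Fin d → ℤ,
      (∏ i ∈ s, (1 + (α i : ℂ) ^ 2)) * CT x (fun z => mo α z * h z) =
        CT x (fun z => mo α z * H z) := by
  classical
  induction s using Finset.induction_on with
  | empty => exact ⟨h, hh, fun α => by simp⟩
  | insert i s hi ih =>
    obtain ⟨H, hH, hHe⟩ := ih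
    refine ⟨fun z => H z + th i (th i H) z, hH.add (th_analytic i (th_analytic i hH)), ?_⟩
    intro α
    rw [Finset.prod_insert hi, mul_assoc, hHe, add_mul, one_mul, sq, mul_assoc,
      key hx hH, key hx (th_analytic i hH)]
    unfold CT
    rw [← integral_add]
    · refine integral_congr_ae (ae_of_all _ fun φ => ?_)
      simp only
      ring
    · exact ((mo_cont α x).mul (comp_cont hx hH)).integrable_of_hasCompactSupport
        (HasCompactSupport.of_compactSpace _)
    · exact ((mo_cont α x).mul (comp_cont hx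
        (th_analytic i (th_analytic i hH)))).integrable_of_hasCompactSupport
        (HasCompactSupport.of_compactSpace _)

theorem summable_base : Summable (fun n : ℤ => 1 / (1 + (n : ℝ) ^ 2)) := by
  have h1 : Summable (fun n : ℤ => 1 / (n : ℝ) ^ 2) := Real.summable_one_div_int_pow.2 (by norm_num)
  have h2 : Summable (fun n : ℤ => if n = 0 then (1:ℝ) else 0) :=
    summable_of_ne_finset_zero (s := {0}) (by
      intro b hb
      rw [Finset.mem_singleton] at hb
      simp [hb])
  refine Summable.of_nonneg_of_le (fun n => by positivity) (fun n => ?_) (h1.add h2)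
  by_cases hn : n = 0
  · subst hn
    simp
  · rw [if_neg hn, add_zero]
    have : (0:ℝ) < (n : ℝ) ^ 2 := by positivity
    exact one_div_le_one_div_of_le this (by linarith)

theorem summable_prod (d : ℕ) :
    Summable (fun α : Fin d → ℤ => ∏ i, (1 / (1 + (α i : ℝ) ^ 2))) := by
  induction d with
  | zero => exact (hasSum_fintype _).summable
  | succ d ih =>
    rw [← (Fin.consEquiv (fun _ : Fin (d + 1) => ℤ)).summable_iff]
    have h := summable_base.mul_of_nonneg ih (fun n => by positivity)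
      (fun α => Finset.prod_nonneg fun i _ => by positivity)
    refine h.congr fun p => ?_
    rw [Function.comp_apply, Fin.prod_univ_succ]
    rfl

/-- TARGET -/
theorem summable_coeff {d : ℕ} (U : Set (Fin d → ℂ)) (hU : IsOpen U) (x : Fin d → ℝ)
    (hx : ∀ φ, E x φ ∈ U) (h : (Fin d → ℂ) → ℂ) (hh : AnalyticOnNhd ℂ h U) :
    Summable fun α : Fin d → ℤ =>
      ‖CT x (fun z => (∏ i, z i ^ (-α i)) * h z)‖ * Real.exp (∑ i, (α i : ℝ) * x i) := by
  obtain ⟨H, hH, hHe⟩ := iterate hx hh Finset.univ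
  obtain ⟨M, hM⟩ : ∃ M, ∀ φ, ‖H (E x φ)‖ ≤ M := by
    obtain ⟨M, hM⟩ := isCompact_univ.exists_bound_of_continuousOn
      (f := fun φ => H (E x φ)) (comp_cont hx hH).continuousOn
    exact ⟨M, fun φ => hM φ (Set.mem_univ _)⟩
  have hM0 : 0 ≤ M := (norm_nonneg _).trans (hM 0)
  obtain ⟨V, hV⟩ : ∃ V : ℝ, V = (volume : Measure (UnitAddTorus (Fin d))).real Set.univ := ⟨_, rfl⟩
  have hV0 : 0 ≤ V := by rw [hV]; exact measureReal_nonneg
  refine Summable.of_nonneg_of_le (fun α => mul_nonneg (norm_nonneg _) (Real.exp_pos _).le)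
    (fun α => ?_) ((summable_prod d).mul_left (M * V))
  have h1 := hHe α
  have h2 : ‖∏ i, (1 + (α i : ℂ) ^ 2)‖ = ∏ i, (1 + (α i : ℝ) ^ 2) := by
    rw [norm_prod]
    refine Finset.prod_congr rfl fun i _ => ?_
    have : (1 + (α i : ℂ) ^ 2) = ((1 + (α i : ℝ) ^ 2 : ℝ) : ℂ) := by push_cast; rfl
    rw [this, Complex.norm_real, Real.norm_eq_abs, abs_of_pos (by positivity)]
  have hP : 0 < ∏ i, (1 + (α i : ℝ) ^ 2) := Finset.prod_pos fun i _ => by positivity
  have hexp := Real.exp_pos (∑ i, (α i : ℝ) * x i)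
  have h3 : ‖CT x (fun z => mo α z * H z)‖ * Real.exp (∑ i, (α i : ℝ) * x i) ≤ M * V := by
    have h4 : ‖CT x (fun z => mo α z * H z)‖ ≤
        (M * (Real.exp (∑ i, (α i : ℝ) * x i))⁻¹) * V := by
      rw [hV]
      refine norm_integral_le_of_norm_le_const (ae_of_all _ fun φ => ?_)
      rw [norm_mul, mul_comm]
      refine mul_le_mul (hM φ) ?_ (norm_nonneg _) hM0
      exact (eq_inv_of_mul_eq_one_left (mo_norm α x φ)).le
    calc ‖CT x (fun z => mo α z * H z)‖ * Real.exp (∑ i, (α i : ℝ) * x i)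
        ≤ ((M * (Real.exp (∑ i, (α i : ℝ) * x i))⁻¹) * V) * Real.exp (∑ i, (α i : ℝ) * x i) :=
          mul_le_mul_of_nonneg_right h4 hexp.le
      _ = M * V := by
          field_simp
  have h5 : ‖CT x (fun z => mo α z * h z)‖ =
      (∏ i, (1 + (α i : ℝ) ^ 2))⁻¹ * ‖CT x (fun z => mo α z * H z)‖ := by
    rw [← h1, norm_mul, h2, ← mul_assoc, inv_mul_cancel₀ hP.ne', one_mul]
  change ‖CT x (fun z => mo α z * h z)‖ * _ ≤ _
  rw [h5, mul_assoc]
  have h6 : ∏ i, (1 / (1 + (α i : ℝ) ^ 2)) = (∏ i, (1 + (α i : ℝ) ^ 2))⁻¹ := by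
    rw [← Finset.prod_inv_distrib]
    exact Finset.prod_congr rfl fun i _ => one_div _
  rw [h6, mul_comm (M * V)]
  exact mul_le_mul_of_nonneg_left h3 (inv_nonneg.2 hP.le)

end Pool.Agent.Helper947.Am
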