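import Mathlib

/-! Definitions for the statement on torus classes in complements of hypersurfaces in the
algebraic torus: Laurent polynomials, amoebas, singular homology, the torus classes. -/

open scoped BigOperators

namespace Pool.Agent.Helper947.Am

/-- The value at `z` of the Laurent polynomial `∑ f(α) z^α`, given by its finitely supported
family of coefficients `f(α)`, `α ∈ ℤ^d`. -/
noncomputable def ev {d : ℕ} (f : (Fin d → ℤ) →₀ ℂ) (z : Fin d → ℂ) : ℂ :=
  f.sum fun α a => a * ∏ i, z i ^ α i

/-- The complement `M_f` of the hypersurface `f = 0` in the complex torus `(ℂ^×)^d`. -/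
def M {d : ℕ} (f : (Fin d → ℤ) →₀ ℂ) : Set (Fin d → ℂ) :=
  {z | (∀ i, z i ≠ 0) ∧ ev f z ≠ 0}

/-- The amoeba of `f`: the image of the hypersurface `f = 0` in `(ℂ^×)^d` under
`z ↦ (log |z_1|, …, log |z_d|)`. -/
def amoeba {d : ℕ} (f : (Fin d → ℤ) →₀ ℂ) : Set (Fin d → ℝ) :=
  {x | ∃ z : Fin d → ℂ, (∀ i, z i ≠ 0) ∧ ev f z = 0 ∧ ∀ i, Real.log ‖z i‖ = x i}

/-- The complement of the amoeba, a topological space (subspace of `ℝ^d`). -/
abbrev Compl {d : ℕ} (f : (Fin d → ℤ) →₀ ℂ) : Type := {x : Fin d → ℝ // x ∉ amoeba f}

/-! ### Singular homology with integer coefficients -/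

/-- The standard `n`-simplex. -/
abbrev Simplex (n : ℕ) : Type := stdSimplex ℝ (Fin (n + 1))

theorem face_mem (n : ℕ) (i : Fin (n + 2)) (t : Simplex n) :
    i.insertNth (α := fun _ => ℝ) 0 t.1 ∈ stdSimplex ℝ (Fin (n + 2)) := by
  constructor
  · intro j
    induction j using Fin.succAboveCases i with
    | x => simp
    | p j => simpa using t.2.1 j
  · rw [Fin.sum_univ_succAbove _ i]
    simpa using t.2.2

theorem face_continuous (n : ℕ) (i : Fin (n + 2)) :
    Continuous fun t : Simplex n => (⟨i.insertNth (α := fun _ => ℝ) 0 t.1, face_mem n i t⟩ :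
      Simplex (n + 1)) := by
  refine Continuous.subtype_mk ?_ _
  refine continuous_pi fun j => ?_
  induction j using Fin.succAboveCases i with
  | x => simpa using continuous_const
  | p j =>
    simp only [Fin.insertNth_apply_succAbove]
    exact (continuous_apply j).comp continuous_subtype_val

/-- Insert `0` as the `i`-th barycentric coordinate: the inclusion of the `i`-th face. -/
noncomputable def faceMap (n : ℕ) (i : Fin (n + 2)) : C(Simplex n, Simplex (n + 1)) where
  toFun t := ⟨i.insertNth (α := fun _ => ℝ) 0 t.1, face_mem n i t⟩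
  continuous_toFun := face_continuous n i

/-- Singular `n`-simplices of `X`: continuous maps `Δ^n → X`. -/
abbrev Sing (X : Type) [TopologicalSpace X] (n : ℕ) : Type := C(Simplex n, X)

/-- Singular `n`-chains with integer coefficients: finite formal integer combinations of
singular simplices. -/
def Chain (X : Type) [TopologicalSpace X] (n : ℕ) : Type := Sing X n →₀ ℤ

noncomputable instance (X : Type) [TopologicalSpace X] (n : ℕ) : AddCommGroup (Chain X n) :=
  Finsupp.instAddCommGroup (ι := Sing X n) (G := ℤ)

/-- The chain `1·σ`. -/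
noncomputable def chainOf {X : Type} [TopologicalSpace X] {n : ℕ} (σ : Sing X n) : Chain X n :=
  Finsupp.single σ (1 : ℤ)

/-- The boundary of a singular simplex, `∂σ = ∑ (-1)^i σ ∘ (i-th face)`. -/
noncomputable def bdryS {X : Type} [TopologicalSpace X] {n : ℕ} (σ : Sing X (n + 1)) :
    Chain X n :=
  ∑ i : Fin (n + 2), ((-1 : ℤ) ^ (i : ℕ)) • chainOf (σ.comp (faceMap n i))

/-- The homomorphism `k ↦ k·∂σ`. -/
noncomputable def bdryZ {X : Type} [TopologicalSpace X] {n : ℕ} (σ : Sing X (n + 1)) :
    ℤ →+ Chain X n :=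
  zmultiplesHom (Chain X n) (bdryS σ)

/-- The singular boundary, extended additively from simplices to chains. -/
noncomputable def bdry (X : Type) [TopologicalSpace X] (n : ℕ) :
    Chain X (n + 1) →+ Chain X n :=
  Finsupp.liftAddHom (bdryZ (X := X) (n := n))

/-- Singular cycles. -/
noncomputable def cycles (X : Type) [TopologicalSpace X] : ∀ n : ℕ, AddSubgroup (Chain X n)
  | 0 => ⊤
  | n + 1 => (bdry X n).ker

/-- The singular homology group `H_n(X; ℤ)`: cycles modulo boundaries. -/
def Homology (X : Type) [TopologicalSpace X] (n : ℕ) : Type :=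
  cycles X n ⧸ (bdry X n).range.addSubgroupOf (cycles X n)

noncomputable instance (X : Type) [TopologicalSpace X] (n : ℕ) : AddCommGroup (Homology X n) :=
  QuotientAddGroup.Quotient.addCommGroup ((bdry X n).range.addSubgroupOf (cycles X n))

/-- The homology class of a cycle. -/
noncomputable def homClass {X : Type} [TopologicalSpace X] {n : ℕ} (z : cycles X n) :
    Homology X n :=
  QuotientAddGroup.mk z

/-! ### The torus classes -/

/-- For a permutation `π` of the coordinates, the affine simplex in `[0,1]^d` with vertices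
`0, e_{π(0)}, e_{π(0)} + e_{π(1)}, …`; its `m`-th coordinate at the point with barycentric
coordinates `t` is the sum of the `t_k` with `k > π⁻¹(m)`.  These simplices triangulate the
cube. -/
noncomputable def cubeSimplex {d : ℕ} (π : Equiv.Perm (Fin d)) (t : Simplex d) : Fin d → ℝ :=
  fun m => ∑ k : Fin (d + 1), if ((π.symm m : Fin d) : ℕ) < (k : ℕ) then t.1 k else 0

/-- The parametrisation `s ↦ (exp(x_j + 2πi s_j))_j` of the torus over `x`. -/
noncomputable def par {d : ℕ} (x s : Fin d → ℝ) : Fin d → ℂ :=
  fun j => Complex.exp ((x j : ℂ) + 2 * Real.pi * Complex.I * (s j : ℂ))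

theorem par_mem {d : ℕ} {f : (Fin d → ℤ) →₀ ℂ} {x : Fin d → ℝ} (hx : x ∉ amoeba f)
    (s : Fin d → ℝ) : par x s ∈ M f := by
  refine ⟨fun i => Complex.exp_ne_zero _, fun h => hx ⟨par x s, fun i => Complex.exp_ne_zero _, h,
    fun i => ?_⟩⟩
  unfold par
  rw [Complex.norm_exp, Real.log_exp]
  simp

theorem torusSimplex_continuous {d : ℕ} (f : (Fin d → ℤ) →₀ ℂ) (x : Compl f)
    (π : Equiv.Perm (Fin d)) :
    Continuous fun t : Simplex d => (⟨par x.1 (cubeSimplex π t), par_mem x.2 _⟩ : M f) := by
  refine Continuous.subtype_mk ?_ _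
  refine continuous_pi fun j => ?_
  unfold par cubeSimplex
  refine Complex.continuous_exp.comp (continuous_const.add (continuous_const.mul
    (Complex.continuous_ofReal.comp ?_)))
  refine continuous_finsetSum _ fun k _ => ?_
  split_ifs
  · exact (continuous_apply k).comp continuous_subtype_val
  · exact continuous_const

/-- The singular simplex in `M_f` obtained from `cubeSimplex π` and the parametrisation of the
torus over `x`. -/
noncomputable def torusSimplex {d : ℕ} (f : (Fin d → ℤ) →₀ ℂ) (x : Compl f)
    (π : Equiv.Perm (Fin d)) : Sing (M f) d where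
  toFun t := ⟨par x.1 (cubeSimplex π t), par_mem x.2 _⟩
  continuous_toFun := torusSimplex_continuous f x π

/-- The fundamental cycle of the torus `Log⁻¹(x)` in `M_f`: the signed sum over all permutations
of the simplices of the standard triangulation of the cube `[0,1]^d`, mapped to the torus by
`s ↦ (exp(x_j + 2πi s_j))_j`. -/
noncomputable def torusChain {d : ℕ} (f : (Fin d → ℤ) →₀ ℂ) (x : Compl f) : Chain (M f) d :=
  ∑ π : Equiv.Perm (Fin d), (Equiv.Perm.sign π : ℤ) • chainOf (torusSimplex f x π)

end Pool.Agent.Helper947.Am
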