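import Mathlib

/-! Averages over compact tori. -/

open MeasureTheory

namespace Pool.Agent.Helper947.Am

/-- The point `(exp(x_j) φ_j)_j` of the torus over `x`. -/
noncomputable def E {d : ℕ} (x : Fin d → ℝ) (φ : UnitAddTorus (Fin d)) : Fin d → ℂ :=
  fun j => (Real.exp (x j) : ℂ) * (AddCircle.toCircle (φ j) : ℂ)

/-- The average (constant term) over the torus over `x`. -/
noncomputable def CT {d : ℕ} (x : Fin d → ℝ) (g : (Fin d → ℂ) → ℂ) : ℂ :=
  ∫ φ : UnitAddTorus (Fin d), g (E x φ)

end Pool.Agent.Helper947.Am
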