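import Pool.Agent.Helper947.Am.Pair
import Pool.Agent.Helper947.Am.Cube
import Pool.Agent.Helper947.Am.Torus

/-! Evaluation of the pairing on the torus chain. -/

open MeasureTheory Filter Topology

namespace Pool.Agent.Helper947.Am

variable {d : ℕ}

theorem par_eq_E (x s : Fin d → ℝ) : par x s = E x (fun j => (s j : UnitAddCircle)) := by
  funext j
  unfold par E
  rw [AddCircle.toCircle_apply_mk, Circle.coe_exp, Complex.ofReal_exp, ← Complex.exp_add]
  congr 1
  push_cast
  ring

theorem E_eq_par (x : Fin d → ℝ) (φ : UnitAddTorus (Fin d)) : ∃ s : Fin d → ℝ, E x φ = par x s := by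
  have : ∀ j, ∃ t : ℝ, (t : UnitAddCircle) = φ j := fun j => QuotientAddGroup.mk_surjective (φ j)
  choose s hs using this
  refine ⟨s, ?_⟩
  rw [par_eq_E]
  congr 1
  funext j
  exact (hs j).symm

/-- box integral versus torus integral -/
theorem integral_par (x : Fin d → ℝ) (F : (Fin d → ℂ) → ℂ) (hF : Continuous fun φ => F (E x φ)) :
    ∫ s in Set.Icc (0 : Fin d → ℝ) 1, F (par x s) = CT x F := by
  unfold CT
  have hmp : MeasurePreserving (fun (s : Fin d → ℝ) (i : Fin d) => (s i : UnitAddCircle))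
      (Measure.pi fun _ => volume.restrict (Set.Ioc (0 : ℝ) (0 + 1)))
      (Measure.pi fun _ => (volume : Measure UnitAddCircle)) :=
    measurePreserving_pi _ _ (fun i => UnitAddCircle.measurePreserving_mk 0)
  have h1 : ∫ φ : UnitAddTorus (Fin d), F (E x φ) =
      ∫ φ, F (E x φ) ∂(Measure.pi fun _ : Fin d => (volume : Measure UnitAddCircle)) := rfl
  rw [h1, ← hmp.map_eq, integral_map hmp.measurable.aemeasurable hF.aestronglyMeasurable]
  have h2 : (Measure.pi fun _ : Fin d => (volume : Measure ℝ).restrict (Set.Ioc (0 : ℝ) (0 + 1))) =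
      (volume : Measure (Fin d → ℝ)).restrict
        (Set.pi Set.univ fun i => Set.Ioc ((0 : Fin d → ℝ) i) ((1 : Fin d → ℝ) i)) := by
    rw [volume_pi, Measure.restrict_pi_pi]
    simp
  have h3 : (Set.pi Set.univ fun i => Set.Ioc ((0 : Fin d → ℝ) i) ((1 : Fin d → ℝ) i))
      =ᵐ[volume] Set.Icc (0 : Fin d → ℝ) 1 := Measure.univ_pi_Ioc_ae_eq_Icc
  rw [h2, setIntegral_congr_set h3]
  refine setIntegral_congr_fun measurableSet_Icc fun s _ => ?_
  rw [par_eq_E]

theorem PP_eq_prod (s : Fin d → ℝ) (p : Fin d) :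
    PP s ((p : ℕ) + 1) = ∏ j : Fin d with j ≤ p, s j := by
  unfold PP
  rw [if_pos (by have := p.2; omega), Finset.prod_filter]
  refine Finset.prod_congr rfl fun j _ => ?_
  have : (j : ℕ) < (p : ℕ) + 1 ↔ j ≤ p := by rw [Fin.le_def]; omega
  simp only [this]

theorem sum_tail (a : ℕ → ℝ) (p : ℕ) : ∀ n : ℕ, p ≤ n →
    ∑ k ∈ Finset.range (n + 1), (if p < k then a k - a (k + 1) else 0) = a (p + 1) - a (n + 1) := by
  intro n hn
  induction n with
  | zero =>
    have : p = 0 := by omega
    subst this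
    simp
  | succ n ih =>
    rw [Finset.sum_range_succ]
    by_cases hp : p ≤ n
    · rw [ih hp, if_pos (by omega)]; ring
    · have hp' : p = n + 1 := by omega
      rw [Finset.sum_eq_zero, if_neg (by omega)]
      · rw [hp']; ring
      · intro k hk
        rw [Finset.mem_range] at hk
        rw [if_neg (by omega)]

theorem cubeSimplex_collS (π : Equiv.Perm (Fin d)) (s : Fin d → ℝ)
    (hs : s ∈ Set.Icc (0 : Fin d → ℝ) 1) : cubeSimplex π (collS s) = colPt π s := by
  funext m
  unfold cubeSimplex colPt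
  have hcl : (fun i => cl (s i)) = s := by
    funext i
    exact cl_of_mem (hs.1 i) (hs.2 i)
  have h1 : (collS s).1 = coll s := by
    show coll (fun i => cl (s i)) = _
    rw [hcl]
  rw [h1, ← PP_eq_prod]
  unfold coll
  rw [Fin.sum_univ_eq_sum_range (fun k => if ((π.symm m : Fin d) : ℕ) < k then
    PP s k - PP s (k + 1) else 0) (d + 1),
    sum_tail (PP s) _ d (by have := (π.symm m).2; omega), PP_top, sub_zero]

/-- the smooth version of a torus simplex -/
noncomputable def kap (x : Fin d → ℝ) (π : Equiv.Perm (Fin d)) (s : Fin d → ℝ) : Fin d → ℂ :=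
  par x (colPt π s)

theorem kap_eq_sq (f : (Fin d → ℤ) →₀ ℂ) (x : Compl f) (π : Equiv.Perm (Fin d)) (s : Fin d → ℝ)
    (hs : s ∈ Set.Icc (0 : Fin d → ℝ) 1) : kap x.1 π s = sq (torusSimplex f x π) s := by
  unfold kap sq
  show _ = par x.1 (cubeSimplex π (collS s))
  rw [cubeSimplex_collS π s hs]

theorem contDiff_colPt (π : Equiv.Perm (Fin d)) (m : Fin d) :
    ContDiff ℝ 2 (fun s : Fin d → ℝ => colPt π s m) := by
  unfold colPt
  exact contDiff_prod fun j _ => contDiff_apply ℝ ℝ j

theorem contDiff_kap (x : Fin d → ℝ) (π : Equiv.Perm (Fin d)) : ContDiff ℝ 2 (kap x π) := by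
  refine contDiff_pi.2 fun m => ?_
  unfold kap par
  exact (contDiff_const.add (contDiff_const.mul
    (Complex.ofRealCLM.contDiff.comp (contDiff_colPt π m)))).cexp

/-- partial derivatives of the partial products -/
theorem hasFDerivAt_prod (S : Finset (Fin d)) (s : Fin d → ℝ) :
    HasFDerivAt (fun s : Fin d → ℝ => ∏ j ∈ S, s j)
      (∑ j ∈ S, (∏ i ∈ S.erase j, s i) • (ContinuousLinearMap.proj j : (Fin d → ℝ) →L[ℝ] ℝ)) s :=
  HasFDerivAt.finsetProd fun j _ => (ContinuousLinearMap.proj j :
    (Fin d → ℝ) →L[ℝ] ℝ).hasFDerivAt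

theorem fderiv_kap (x : Fin d → ℝ) (π : Equiv.Perm (Fin d)) (s : Fin d → ℝ) (j k : Fin d) :
    fderiv ℝ (kap x π) s (Pi.single j 1) k =
      (2 * Real.pi * Complex.I * kap x π s k) *
        (if j ≤ π.symm k then ((∏ i ∈ (Finset.univ.filter fun i => i ≤ π.symm k).erase j, s i : ℝ) : ℂ)
          else 0) := by
  have h1 : HasFDerivAt (fun s => kap x π s k)
      ((2 * Real.pi * Complex.I * kap x π s k) • (Complex.ofRealCLM.comp
        (∑ j ∈ Finset.univ.filter fun i => i ≤ π.symm k,
          (∏ i ∈ (Finset.univ.filter fun i => i ≤ π.symm k).erase j, s i) •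
            (ContinuousLinearMap.proj j : (Fin d → ℝ) →L[ℝ] ℝ)))) s := by
    have h2 := (Complex.ofRealCLM.hasFDerivAt).comp s
      (hasFDerivAt_prod (Finset.univ.filter fun i => i ≤ π.symm k) s)
    have h3 := ((h2.const_mul (2 * Real.pi * Complex.I)).const_add (x k : ℂ)).cexp
    refine h3.congr_fderiv ?_
    ext v
    simp only [_root_.smul_apply, smul_eq_mul]
    unfold kap par colPt
    simp only [Function.comp_apply, Complex.ofRealCLM_apply]
    ring
  have hpi : HasFDerivAt (kap x π) (fderiv ℝ (kap x π) s) s :=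
    ((contDiff_kap x π).differentiable (by norm_num) s).hasFDerivAt
  have h4 := (hasFDerivAt_pi'.1 hpi) k
  have h5 := h4.unique h1
  have h6 : fderiv ℝ (kap x π) s (Pi.single j 1) k =
      ((ContinuousLinearMap.proj k).comp (fderiv ℝ (kap x π) s)) (Pi.single j 1) := rfl
  rw [h6, h5]
  simp only [_root_.smul_apply, smul_eq_mul, ContinuousLinearMap.comp_apply,
    Complex.ofRealCLM_apply, _root_.sum_apply, ContinuousLinearMap.proj_apply]
  congr 1
  by_cases hj : j ≤ π.symm k
  · rw [if_pos hj, Finset.sum_eq_single j]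
    · simp
    · intro i _ hi
      simp [Pi.single_eq_of_ne hi]
    · intro h
      exact absurd (Finset.mem_filter.2 ⟨Finset.mem_univ j, hj⟩) h
  · rw [if_neg hj, Finset.sum_eq_zero]
    · simp
    · intro i hi
      have : i ≠ j := by
        rintro rfl
        exact hj (Finset.mem_filter.1 hi).2
      simp [Pi.single_eq_of_ne this]

theorem prod_diag (s : Fin d → ℝ) :
    ∏ j : Fin d, ∏ i ∈ (Finset.univ.filter fun i : Fin d => i ≤ j).erase j, s i =
      ∏ j : Fin d, s j ^ (d - 1 - (j : ℕ)) := by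
  have h1 : ∀ j : Fin d, ∏ i ∈ (Finset.univ.filter fun i : Fin d => i ≤ j).erase j, s i =
      ∏ i : Fin d, if i < j then s i else 1 := by
    intro j
    rw [← Finset.prod_filter]
    refine Finset.prod_congr ?_ fun _ _ => rfl
    ext i
    simp only [Finset.mem_erase, Finset.mem_filter, Finset.mem_univ, true_and]
    constructor
    · rintro ⟨h1, h2⟩; exact lt_of_le_of_ne h2 h1
    · intro h; exact ⟨h.ne, h.le⟩
  rw [Finset.prod_congr rfl fun j _ => h1 j, Finset.prod_comm]
  refine Finset.prod_congr rfl fun i _ => ?_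
  rw [← Finset.prod_filter, Finset.prod_const]
  congr 1
  have : (Finset.univ.filter fun j : Fin d => i < j) = Finset.Ioi i := by
    ext j; simp
  rw [this, Fin.card_Ioi]

theorem det_kap (x : Fin d → ℝ) (π : Equiv.Perm (Fin d)) (s : Fin d → ℝ) :
    Matrix.det (Matrix.of fun j k : Fin d => fderiv ℝ (kap x π) s (Pi.single j 1) k) =
      (∏ k, (2 * Real.pi * Complex.I * kap x π s k)) *
        ((Equiv.Perm.sign π : ℤ) : ℂ) * ((∏ j : Fin d, s j ^ (d - 1 - (j : ℕ)) : ℝ) : ℂ) := by
  let A : Matrix (Fin d) (Fin d) ℂ := Matrix.of fun j l =>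
    if j ≤ l then ((∏ i ∈ (Finset.univ.filter fun i => i ≤ l).erase j, s i : ℝ) : ℂ) else 0
  have h1 : (Matrix.of fun j k : Fin d => fderiv ℝ (kap x π) s (Pi.single j 1) k) =
      Matrix.of fun j k => (2 * Real.pi * Complex.I * kap x π s k) *
        (A.submatrix id π.symm) j k := by
    ext j k
    simp only [Matrix.of_apply, Matrix.submatrix_apply, id, A]
    exact fderiv_kap x π s j k
  rw [h1, Matrix.det_mul_row, Matrix.det_permute']
  have hA : A.BlockTriangular id := by
    intro i j hij
    simp only [id] at hij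
    simp only [A, Matrix.of_apply]
    rw [if_neg (not_le.2 hij)]
  rw [Matrix.det_of_isUpperTriangular hA]
  have hdiag : ∏ i, A i i = ((∏ j : Fin d, s j ^ (d - 1 - (j : ℕ)) : ℝ) : ℂ) := by
    rw [← prod_diag]
    push_cast
    refine Finset.prod_congr rfl fun j _ => ?_
    simp only [A, Matrix.of_apply, le_refl, if_true]
    push_cast
    rfl
  rw [hdiag, Equiv.Perm.sign_symm]
  ring

theorem continuous_par (x : Fin d → ℝ) : Continuous (par x) := by
  refine continuous_pi fun j => ?_
  unfold par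
  exact Complex.continuous_exp.comp (continuous_const.add (continuous_const.mul
    (Complex.continuous_ofReal.comp (continuous_apply j))))

/-- Evaluation on the torus chain. -/
theorem eval_torus (f : (Fin d → ℤ) →₀ ℂ) (x : Compl f) (h : (Fin d → ℂ) → ℂ)
    (hh : ContinuousOn h (M f)) :
    ∑ π : Equiv.Perm (Fin d), ((Equiv.Perm.sign π : ℤ) : ℂ) * Jint h (kap x.1 π) =
      (2 * Real.pi * Complex.I) ^ d * CT x.1 (fun z => (∏ k, z k) * h z) := by
  have hG : Continuous fun s : Fin d → ℝ =>
      (∏ k, (2 * Real.pi * Complex.I * par x.1 s k)) * h (par x.1 s) := by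
    refine Continuous.mul ?_ ?_
    · exact continuous_finsetProd _ fun k _ => continuous_const.mul
        ((continuous_apply k).comp (continuous_par x.1))
    · exact hh.comp_continuous (continuous_par x.1) fun s => par_mem x.2 s
  have h1 := integral_cube_eq_sum _ hG
  have h2 : ∀ π : Equiv.Perm (Fin d), ((Equiv.Perm.sign π : ℤ) : ℂ) * Jint h (kap x.1 π) =
      ∫ s in Set.Icc (0 : Fin d → ℝ) 1,
        ((∏ j : Fin d, s j ^ (d - 1 - (j : ℕ)) : ℝ) : ℂ) *
          ((∏ k, (2 * Real.pi * Complex.I * par x.1 (colPt π s) k)) * h (par x.1 (colPt π s))) := by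
    intro π
    unfold Jint
    rw [← integral_const_mul]
    congr 1
    funext s
    rw [det_kap]
    have hsq : ((Equiv.Perm.sign π : ℤ) : ℂ) * ((Equiv.Perm.sign π : ℤ) : ℂ) = 1 := by
      rcases Int.units_eq_one_or (Equiv.Perm.sign π) with h | h <;> rw [h] <;> simp
    unfold kap
    linear_combination (((∏ j : Fin d, s j ^ (d - 1 - (j : ℕ)) : ℝ) : ℂ) *
          ((∏ k, (2 * Real.pi * Complex.I * par x.1 (colPt π s) k)) *
            h (par x.1 (colPt π s)))) * hsq
  rw [Finset.sum_congr rfl fun π _ => h2 π, ← h1]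
  have h3 : ∀ s : Fin d → ℝ, (∏ k, (2 * Real.pi * Complex.I * par x.1 s k)) * h (par x.1 s) =
      (2 * Real.pi * Complex.I) ^ d * ((∏ k, par x.1 s k) * h (par x.1 s)) := by
    intro s
    rw [Finset.prod_mul_distrib, Finset.prod_const, Finset.card_univ, Fintype.card_fin, mul_assoc]
  simp only [h3]
  rw [integral_const_mul, integral_par x.1 (fun z => (∏ k, z k) * h z)]
  refine Continuous.mul ?_ ?_
  · refine continuous_finsetProd _ fun k _ => ?_
    unfold E
    exact continuous_const.mul (continuous_subtype_val.comp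
      (AddCircle.continuous_toCircle.comp (continuous_apply k)))
  · refine hh.comp_continuous ?_ fun φ => ?_
    · refine continuous_pi fun k => ?_
      unfold E
      exact continuous_const.mul (continuous_subtype_val.comp
        (AddCircle.continuous_toCircle.comp (continuous_apply k)))
    · obtain ⟨s, hs⟩ := E_eq_par x.1 φ
      rw [hs]
      exact par_mem x.2 s

end Pool.Agent.Helper947.Am
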