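import Pool.Agent.Helper947.Am.Defs

/-! Decay of Laurent coefficients, and the series argument. -/

open MeasureTheory Filter Topology

namespace Pool.Agent.Helper947.Am

theorem mon_add {d : ℕ} (z : Fin d → ℂ) (hz : ∀ i, z i ≠ 0) (α β : Fin d → ℤ) :
    (∏ i, z i ^ (α + β) i) = (∏ i, z i ^ α i) * ∏ i, z i ^ β i := by
  rw [← Finset.prod_mul_distrib]
  exact Finset.prod_congr rfl (fun i _ => zpow_add₀ (hz i) _ _)

theorem norm_mon {d : ℕ} (z : Fin d → ℂ) (hz : ∀ i, z i ≠ 0) (α : Fin d → ℤ) :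
    ‖∏ i, z i ^ α i‖ = Real.exp (∑ i, (α i : ℝ) * Real.log ‖z i‖) := by
  rw [norm_prod, Real.exp_sum]
  refine Finset.prod_congr rfl (fun i _ => ?_)
  rw [norm_zpow, mul_comm, ← Real.rpow_def_of_pos (norm_pos_iff.2 (hz i)), Real.rpow_intCast]

/-- TARGET: if the coefficient family `a` is a convolution inverse of `f` and its Laurent series
converges absolutely over `x` and over `y`, then `f` has no zero over the segment `[x,y]`. -/
theorem ev_ne_zero_of_series {d : ℕ} (f : (Fin d → ℤ) →₀ ℂ) (x y : Fin d → ℝ)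
    (a : (Fin d → ℤ) → ℂ)
    (hx : Summable fun α : Fin d → ℤ => ‖a α‖ * Real.exp (∑ i, (α i : ℝ) * x i))
    (hy : Summable fun α : Fin d → ℤ => ‖a α‖ * Real.exp (∑ i, (α i : ℝ) * y i))
    (hfa : ∀ γ : Fin d → ℤ, (f.sum fun β b => b * a (γ - β)) = if γ = 0 then 1 else 0)
    (t : ℝ) (ht0 : 0 ≤ t) (ht1 : t ≤ 1) (z : Fin d → ℂ) (hz : ∀ i, z i ≠ 0)
    (hlog : ∀ i, Real.log ‖z i‖ = (1 - t) * x i + t * y i) : ev f z ≠ 0 := by
  set m : (Fin d → ℤ) → ℂ := fun α => ∏ i, z i ^ α i with hm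
  have hmadd : ∀ α β, m (α + β) = m α * m β := mon_add z hz
  have hbound : ∀ α, ‖a α * m α‖ ≤
      (1 - t) * (‖a α‖ * Real.exp (∑ i, (α i : ℝ) * x i)) +
        t * (‖a α‖ * Real.exp (∑ i, (α i : ℝ) * y i)) := by
    intro α
    rw [norm_mul, hm, norm_mon z hz]
    have h1 : (∑ i, (α i : ℝ) * Real.log ‖z i‖) =
        (1 - t) * (∑ i, (α i : ℝ) * x i) + t * (∑ i, (α i : ℝ) * y i) := by
      rw [Finset.mul_sum, Finset.mul_sum, ← Finset.sum_add_distrib]
      refine Finset.sum_congr rfl (fun i _ => ?_)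
      rw [hlog i]; ring
    rw [h1]
    have h2 := convexOn_exp.2 (Set.mem_univ (∑ i, (α i : ℝ) * x i))
      (Set.mem_univ (∑ i, (α i : ℝ) * y i)) (by linarith : 0 ≤ 1 - t) ht0 (by ring)
    simp only [smul_eq_mul] at h2
    nlinarith [mul_le_mul_of_nonneg_left h2 (norm_nonneg (a α))]
  have hsum : Summable fun α => a α * m α :=
    Summable.of_norm_bounded ((hx.mul_left (1 - t)).add (hy.mul_left t)) hbound
  have hshift : ∀ β, (∑' α, a α * m α) * m β = ∑' γ, a (γ - β) * m γ := by
    intro β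
    rw [← tsum_mul_right, ← (Equiv.subRight β).tsum_eq]
    refine tsum_congr (fun γ => ?_)
    simp only [Equiv.subRight_apply]
    rw [mul_assoc, ← hmadd, sub_add_cancel]
  have hshiftS : ∀ β, Summable fun γ => a (γ - β) * m γ := by
    intro β
    have h1 := (hsum.mul_right (m β))
    have h2 := ((Equiv.subRight β).summable_iff).2 h1
    refine h2.congr (fun γ => ?_)
    simp only [Function.comp, Equiv.subRight_apply]
    rw [mul_assoc, ← hmadd, sub_add_cancel]
  have key : ev f z * (∑' α, a α * m α) = 1 := by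
    unfold ev Finsupp.sum
    rw [Finset.sum_mul]
    have h1 : ∀ β ∈ f.support, f β * (∏ i, z i ^ β i) * (∑' α, a α * m α) =
        ∑' γ, f β * (a (γ - β) * m γ) := by
      intro β _
      rw [tsum_mul_left, ← hshift β]
      show f β * m β * _ = _
      ring
    rw [Finset.sum_congr rfl h1,
      ← Summable.tsum_finsetSum (fun β _ => (hshiftS β).mul_left (f β))]
    have h2 : ∀ γ, (∑ β ∈ f.support, f β * (a (γ - β) * m γ)) = if γ = 0 then 1 else 0 := by
      intro γ
      have h3 := hfa γ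
      unfold Finsupp.sum at h3
      have h4 : (∑ β ∈ f.support, f β * (a (γ - β) * m γ)) =
          (∑ β ∈ f.support, f β * a (γ - β)) * m γ := by
        rw [Finset.sum_mul]
        exact Finset.sum_congr rfl (fun β _ => by ring)
      rw [h4, h3]
      split_ifs with h
      · rw [h]; simp [hm]
      · simp
    rw [tsum_congr h2]
    exact tsum_ite_eq 0 _
  intro h0
  rw [h0, zero_mul] at key
  exact zero_ne_one key

end Pool.Agent.Helper947.Am
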