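import Pool.Agent.Helper947.Am.Eval
import Pool.Agent.Helper947.Am.CTmul
import Pool.Agent.Helper947.Am.Decay
import Pool.Agent.Helper947.Am.Series

/-! Linear independence of the torus classes: final assembly. -/

open MeasureTheory Filter Topology

namespace Pool.Agent.Helper947.Am

section pairing

variable {m : ℕ}

/-- The pairing of chains with a function on simplices. -/
noncomputable def pairHom {X : Type} [TopologicalSpace X] {n : ℕ} (F : Sing X n → ℂ) :
    Chain X n →+ ℂ :=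
  Finsupp.liftAddHom fun σ => zmultiplesHom ℂ (F σ)

theorem pairHom_chainOf {X : Type} [TopologicalSpace X] {n : ℕ} (F : Sing X n → ℂ)
    (σ : Sing X n) : pairHom F (chainOf σ) = F σ := by
  unfold pairHom chainOf
  erw [Finsupp.liftAddHom_apply_single]
  simp

theorem pairHom_bdryS {X : Type} [TopologicalSpace X] {n : ℕ} (F : Sing X n → ℂ)
    (σ : Sing X (n + 1)) : pairHom F (bdryS σ) =
      ∑ i : Fin (n + 2), ((-1 : ℂ) ^ (i : ℕ)) * F (σ.comp (faceMap n i)) := by
  unfold bdryS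
  rw [map_sum]
  refine Finset.sum_congr rfl fun i _ => ?_
  rw [map_zsmul, pairHom_chainOf, zsmul_eq_mul]
  push_cast
  rfl

theorem chain_eq_sum {X : Type} [TopologicalSpace X] {n : ℕ} (B : Chain X n) :
    B = ∑ τ ∈ Finsupp.support (α := Sing X n) (M := ℤ) B,
      (Finsupp.toFun (α := Sing X n) (M := ℤ) B τ) • chainOf τ := by
  have h := (Finsupp.sum_single (α := Sing X n) (M := ℤ) B).symm
  refine h.trans ?_
  unfold Finsupp.sum
  refine Finset.sum_congr rfl fun τ _ => ?_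
  have h2 : (Finsupp.single τ (Finsupp.toFun (α := Sing X n) (M := ℤ) B τ) : Sing X n →₀ ℤ) =
      (Finsupp.toFun (α := Sing X n) (M := ℤ) B τ) • Finsupp.single τ (1 : ℤ) := by
    rw [Finsupp.smul_single, smul_eq_mul, mul_one]
  exact h2

/-- The pairing with the Bernstein smoothing. -/
noncomputable def Lam (h : (Fin (m + 1) → ℂ) → ℂ) (N : ℕ) (U : Set (Fin (m + 1) → ℂ)) :
    Chain U (m + 1) →+ ℂ :=
  pairHom fun σ : C(Simplex (m + 1), U) => Jint h (BN N (sq σ))

/-- The homotopy pairing. -/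
noncomputable def Lam' (h : (Fin (m + 1) → ℂ) → ℂ) (N : ℕ) (U : Set (Fin (m + 1) → ℂ)) :
    Chain U m →+ ℂ :=
  pairHom fun σ : C(Simplex m, U) => Hom h N (sq σ)

theorem lam_bdry (U : Set (Fin (m + 1) → ℂ)) (hU : IsOpen U) (h : (Fin (m + 1) → ℂ) → ℂ)
    (hh : AnalyticOnNhd ℂ h U) (B : Chain U (m + 2)) :
    ∃ N₀ : ℕ, ∀ N ≥ N₀, Lam h N U (bdry U (m + 1) B) = 0 := by
  have hex := fun τ : C(Simplex (m + 2), U) => pair_face U hU h hh τ
  choose N₀ hN₀ using hex
  refine ⟨(Finsupp.support (α := Sing U (m + 2)) (M := ℤ) B).sup N₀, fun N hN => ?_⟩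
  rw [chain_eq_sum B, map_sum, map_sum]
  refine Finset.sum_eq_zero fun τ hτ => ?_
  rw [map_zsmul, map_zsmul, bdry_chainOf]
  unfold Lam
  rw [pairHom_bdryS, hN₀ τ N (le_trans (Finset.le_sup hτ) hN), smul_zero]

theorem lam_torus (f : (Fin (m + 1) → ℤ) →₀ ℂ) (hU : IsOpen (M f))
    (h : (Fin (m + 1) → ℂ) → ℂ) (hh : AnalyticOnNhd ℂ h (M f)) (x : Compl f) :
    ∃ N₀ : ℕ, ∀ N ≥ N₀, Lam h N (M f) (torusChain f x) =
      (2 * Real.pi * Complex.I) ^ (m + 1) * CT x.1 (fun z => (∏ k, z k) * h z) := by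
  have hex := fun π : Equiv.Perm (Fin (m + 1)) => pair_homotopy (M f) hU h hh (torusSimplex f x π)
    (kap x.1 π) (contDiff_kap x.1 π) (fun s hs => kap_eq_sq f x π s hs)
  choose N₀ hN₀ using hex
  refine ⟨Finset.univ.sup N₀, fun N hN => ?_⟩
  rw [← eval_torus f x h hh.continuousOn]
  have h0 : Lam' h N (M f) (bdry (M f) m (torusChain f x)) = 0 := by
    rw [bdry_torusChain, map_zero]
  have h1 : Lam' h N (M f) (bdry (M f) m (torusChain f x)) =
      ∑ π : Equiv.Perm (Fin (m + 1)), ((Equiv.Perm.sign π : ℤ) : ℂ) *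
        ∑ i : Fin (m + 2), ((-1 : ℂ) ^ (i : ℕ)) *
          Hom h N (sq ((torusSimplex f x π).comp (faceMap m i))) := by
    unfold torusChain
    rw [map_sum, map_sum]
    refine Finset.sum_congr rfl fun π _ => ?_
    rw [map_zsmul, map_zsmul, zsmul_eq_mul, bdry_chainOf]
    unfold Lam'
    rw [pairHom_bdryS]
  have h2 : Lam h N (M f) (torusChain f x) =
      ∑ π : Equiv.Perm (Fin (m + 1)), ((Equiv.Perm.sign π : ℤ) : ℂ) *
        Jint h (BN N (sq (torusSimplex f x π))) := by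
    unfold torusChain
    rw [map_sum]
    refine Finset.sum_congr rfl fun π _ => ?_
    rw [map_zsmul, zsmul_eq_mul]
    unfold Lam
    rw [pairHom_chainOf]
  have h3 : ∀ π : Equiv.Perm (Fin (m + 1)), Jint h (BN N (sq (torusSimplex f x π))) =
      Jint h (kap x.1 π) + ∑ i : Fin (m + 2), ((-1 : ℂ) ^ (i : ℕ)) *
          Hom h N (sq ((torusSimplex f x π).comp (faceMap m i))) := by
    intro π
    have := hN₀ π N (le_trans (Finset.le_sup (Finset.mem_univ π)) hN)
    linear_combination this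
  rw [h2, Finset.sum_congr rfl fun π _ => by rw [h3 π, mul_add], Finset.sum_add_distrib, ← h1, h0,
    add_zero]

/-- If an integer combination of torus chains bounds, then the combination of the averages of
every analytic function vanishes. -/
theorem pairing (f : (Fin (m + 1) → ℤ) →₀ ℂ) (hU : IsOpen (M f))
    {ι : Type} [Fintype ι] (x : ι → Compl f) (c : ι → ℤ) (B : Chain (M f) (m + 2))
    (hB : bdry (M f) (m + 1) B = ∑ i, c i • torusChain f (x i))
    (h : (Fin (m + 1) → ℂ) → ℂ) (hh : AnalyticOnNhd ℂ h (M f)) :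
    ∑ i, (c i : ℂ) * CT (x i).1 (fun z => (∏ k, z k) * h z) = 0 := by
  obtain ⟨N₁, hN₁⟩ := lam_bdry (M f) hU h hh B
  have hex := fun i => lam_torus f hU h hh (x i)
  choose N₂ hN₂ using hex
  set N := max N₁ (Finset.univ.sup N₂) with hN
  have h1 := hN₁ N (le_max_left _ _)
  rw [hB, map_sum] at h1
  have h2 : ∀ i, Lam h N (M f) (c i • torusChain f (x i)) =
      (2 * Real.pi * Complex.I) ^ (m + 1) * ((c i : ℂ) *
        CT (x i).1 (fun z => (∏ k, z k) * h z)) := by
    intro i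
    rw [map_zsmul, zsmul_eq_mul, hN₂ i N (le_trans (Finset.le_sup (Finset.mem_univ i))
      (le_max_right _ _))]
    ring
  rw [Finset.sum_congr rfl fun i _ => h2 i, ← Finset.mul_sum] at h1
  have h3 : (2 * Real.pi * Complex.I) ^ (m + 1) ≠ (0 : ℂ) := by
    apply pow_ne_zero
    simp [Real.pi_ne_zero, Complex.I_ne_zero]
  exact (mul_eq_zero.1 h1).resolve_left h3

end pairing

variable {d : ℕ}

theorem continuousAt_mon (α : Fin d → ℤ) {z : Fin d → ℂ} (hz : ∀ i, z i ≠ 0) :
    AnalyticAt ℂ (fun z : Fin d → ℂ => ∏ i, z i ^ α i) z := by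
  refine Finset.analyticAt_fun_prod _ fun i _ => ?_
  exact ((ContinuousLinearMap.proj i : (Fin d → ℂ) →L[ℂ] ℂ).analyticAt z).zpow (hz i)

theorem analyticAt_ev (f : (Fin d → ℤ) →₀ ℂ) {z : Fin d → ℂ} (hz : ∀ i, z i ≠ 0) :
    AnalyticAt ℂ (ev f) z := by
  unfold ev Finsupp.sum
  refine Finset.analyticAt_fun_sum _ fun α _ => ?_
  exact analyticAt_const.mul (continuousAt_mon α hz)

theorem isOpen_M (f : (Fin d → ℤ) →₀ ℂ) : IsOpen (M f) := by
  rw [isOpen_iff_mem_nhds]
  rintro z ⟨hz, hfz⟩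
  have h1 : ∀ᶠ w in 𝓝 z, ∀ i, w i ≠ 0 := by
    rw [Filter.eventually_all]
    intro i
    exact (continuous_apply i).continuousAt.eventually_ne (hz i)
  have h2 : ∀ᶠ w in 𝓝 z, ev f w ≠ 0 :=
    (analyticAt_ev f hz).continuousAt.eventually_ne hfz
  filter_upwards [h1, h2] with w hw1 hw2
  exact ⟨hw1, hw2⟩

theorem E_mem (f : (Fin d → ℤ) →₀ ℂ) (x : Compl f) (φ : UnitAddTorus (Fin d)) :
    E x.1 φ ∈ M f := by
  obtain ⟨s, hs⟩ := E_eq_par x.1 φ
  rw [hs]
  exact par_mem x.2 s

/-- `c` annihilates the averages of all analytic functions on `M f`. -/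
def Ann (f : (Fin d → ℤ) →₀ ℂ) {ι : Type} [Fintype ι] (x : ι → Compl f) (c : ι → ℂ) : Prop :=
  ∀ g : (Fin d → ℂ) → ℂ, AnalyticOnNhd ℂ g (M f) → ∑ w, c w * CT (x w).1 g = 0

theorem Ann.mul {f : (Fin d → ℤ) →₀ ℂ} {ι : Type} [Fintype ι] {x : ι → Compl f} {c : ι → ℂ}
    (hc : Ann f x c) {g₀ : (Fin d → ℂ) → ℂ} (hg₀ : AnalyticOnNhd ℂ g₀ (M f)) (a : ℂ) :
    Ann f x (fun w => c w * (CT (x w).1 g₀ - a)) := by
  intro g hg
  have h1 := CT_mul (M f) (isOpen_M f) (fun w => (x w).1) (fun w φ => E_mem f (x w) φ) c hc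
    g₀ g hg₀ hg
  have h2 := hc g hg
  have h3 : ∀ w, c w * (CT (x w).1 g₀ - a) * CT (x w).1 g =
      c w * CT (x w).1 g₀ * CT (x w).1 g - a * (c w * CT (x w).1 g) := fun w => by ring
  rw [Finset.sum_congr rfl fun w _ => h3 w, Finset.sum_sub_distrib, ← Finset.mul_sum]
  rw [h2, h1]
  ring

theorem CT_one (x : Fin d → ℝ) : CT x (fun _ => 1) = 1 := by
  unfold CT
  have : (volume : Measure (UnitAddTorus (Fin d))) Set.univ = 1 := by
    rw [volume_pi, Measure.pi_univ]
    exact Finset.prod_eq_one fun i _ => UnitAddCircle.measure_univ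
  rw [integral_const, Measure.real, this]
  simp

theorem Ann.eq_zero {f : (Fin d → ℤ) →₀ ℂ} {ι : Type} [Fintype ι] [DecidableEq ι]
    {x : ι → Compl f} {c : ι → ℂ} (hc : Ann f x c)
    (hsep : ∀ v w, v ≠ w → ∃ g : (Fin d → ℂ) → ℂ, AnalyticOnNhd ℂ g (M f) ∧
      CT (x v).1 g ≠ CT (x w).1 g) (v : ι) : c v = 0 := by
  choose! g hg hgne using hsep
  -- multiply by the separating functions
  have key : ∀ S : Finset ι, v ∉ S →
      Ann f x (fun w => c w * ∏ u ∈ S, (CT (x w).1 (g v u) - CT (x u).1 (g v u))) := by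
    intro S
    induction S using Finset.induction_on with
    | empty =>
      intro _
      simpa using hc
    | insert u S hu ih =>
      intro hv
      have hvu : v ≠ u := fun h => hv (h ▸ Finset.mem_insert_self _ _)
      have hvS : v ∉ S := fun h => hv (Finset.mem_insert_of_mem h)
      have h1 := (ih hvS).mul (hg v u hvu) (CT (x u).1 (g v u))
      intro g' hg'
      rw [← h1 g' hg']
      refine Finset.sum_congr rfl fun w _ => ?_
      beta_reduce
      rw [Finset.prod_insert hu]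
      ring
  have h1 := key (Finset.univ.erase v) (Finset.notMem_erase v _) (fun _ => 1) analyticOnNhd_const
  rw [Finset.sum_eq_single v] at h1
  · rw [CT_one, mul_one] at h1
    refine (mul_eq_zero.1 h1).resolve_right ?_
    have : ∏ u ∈ Finset.univ.erase v, (CT (x v).1 (g v u) - CT (x u).1 (g v u)) ≠ 0 := by
      rw [Finset.prod_ne_zero_iff]
      intro u hu
      exact sub_ne_zero.2 (hgne v u (Finset.ne_of_mem_erase hu).symm)
    exact this
  · intro w _ hw
    beta_reduce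
    rw [Finset.prod_eq_zero (Finset.mem_erase.2 ⟨hw, Finset.mem_univ w⟩)
      (sub_self (CT (x w).1 (g v w)))]
    ring
  · intro h; exact absurd (Finset.mem_univ _) h

theorem CT_mo_zero (x : Fin d → ℝ) : CT x (mo (0 : Fin d → ℤ)) = 1 := by
  have : mo (0 : Fin d → ℤ) = fun _ => (1 : ℂ) := by
    funext z; simp [mo]
  rw [this, CT_one]

theorem CT_mo_ne (x : Fin d → ℝ) (γ : Fin d → ℤ) (hγ : γ ≠ 0) : CT x (mo γ) = 0 := by
  obtain ⟨i, hi⟩ := Function.ne_iff.1 hγ
  have h1 := key (U := Set.univ) (x := x) (fun _ => Set.mem_univ _)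
    (h := fun _ => (1 : ℂ)) analyticOnNhd_const γ i
  have h2 : ∀ z : Fin d → ℂ, th i (fun _ => (1 : ℂ)) z = 0 := by
    intro z; unfold th; simp
  simp only [h2, mul_zero, mul_one] at h1
  have h3 : CT x (fun _ : Fin d → ℂ => (0 : ℂ)) = 0 := by unfold CT; simp
  rw [h3] at h1
  refine (mul_eq_zero.1 h1).resolve_left ?_
  exact_mod_cast hi

theorem analytic_inv (f : (Fin d → ℤ) →₀ ℂ) : AnalyticOnNhd ℂ (fun z => (ev f z)⁻¹) (M f) :=
  fun _ hz => (analyticAt_ev f hz.1).inv hz.2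

theorem analytic_mo (f : (Fin d → ℤ) →₀ ℂ) (α : Fin d → ℤ) : AnalyticOnNhd ℂ (mo α) (M f) := by
  intro z hz
  exact continuousAt_mon (-α) hz.1

theorem coeff_conv (f : (Fin d → ℤ) →₀ ℂ) (x : Compl f) (γ : Fin d → ℤ) :
    (f.sum fun β b => b * CT x.1 (fun z => mo (γ - β) z * (ev f z)⁻¹)) =
      if γ = 0 then 1 else 0 := by
  have hcont : ∀ α : Fin d → ℤ, Continuous fun φ => mo α (E x.1 φ) * (ev f (E x.1 φ))⁻¹ := fun α =>
    (mo_cont α x.1).mul (comp_cont (E_mem f x) (analytic_inv f))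
  have h1 : (f.sum fun β b => b * CT x.1 (fun z => mo (γ - β) z * (ev f z)⁻¹)) =
      CT x.1 (mo γ) := by
    unfold Finsupp.sum CT
    simp only [← integral_const_mul]
    rw [← integral_finsetSum]
    · refine integral_congr_ae (ae_of_all _ fun φ => ?_)
      have hz := E_mem f x φ
      have h2 : ∀ β ∈ f.support, f β * (mo (γ - β) (E x.1 φ) * (ev f (E x.1 φ))⁻¹) =
          (f β * ∏ i, E x.1 φ i ^ β i) * (mo γ (E x.1 φ) * (ev f (E x.1 φ))⁻¹) := by
        intro β _
        have : mo (γ - β) (E x.1 φ) = (∏ i, E x.1 φ i ^ β i) * mo γ (E x.1 φ) := by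
          unfold mo
          rw [← Finset.prod_mul_distrib]
          refine Finset.prod_congr rfl fun i _ => ?_
          rw [← zpow_add₀ (hz.1 i)]
          congr 1
          simp [sub_eq_add_neg]
        rw [this]
        ring
      simp only
      rw [Finset.sum_congr rfl h2, ← Finset.sum_mul]
      have h3 : ∑ β ∈ f.support, f β * ∏ i, E x.1 φ i ^ β i = ev f (E x.1 φ) := rfl
      rw [h3]
      have hne : ev f (E x.1 φ) ≠ 0 := hz.2
      field_simp
    · intro β _
      exact (continuous_const.mul (hcont _)).integrable_of_hasCompactSupport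
        (HasCompactSupport.of_compactSpace _)
  rw [h1]
  split_ifs with h
  · rw [h]; exact CT_mo_zero x.1
  · exact CT_mo_ne x.1 γ h

/-- If all averages agree, the segment avoids the amoeba. -/
theorem segment_compl (f : (Fin d → ℤ) →₀ ℂ) (x y : Compl f)
    (hxy : ∀ g : (Fin d → ℂ) → ℂ, AnalyticOnNhd ℂ g (M f) → CT x.1 g = CT y.1 g)
    (t : ℝ) (ht0 : 0 ≤ t) (ht1 : t ≤ 1) :
    (fun i => (1 - t) * x.1 i + t * y.1 i) ∉ amoeba f := by
  rintro ⟨z, hz, hfz, hlog⟩
  refine ev_ne_zero_of_series f x.1 y.1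
    (fun α => CT x.1 (fun z => mo α z * (ev f z)⁻¹)) ?_ ?_ (coeff_conv f x) t ht0 ht1 z hz
    hlog hfz
  · exact summable_coeff (M f) (isOpen_M f) x.1 (E_mem f x) _ (analytic_inv f)
  · have h1 := summable_coeff (M f) (isOpen_M f) y.1 (E_mem f y) _ (analytic_inv f)
    refine h1.congr fun α => ?_
    rw [hxy (fun z => mo α z * (ev f z)⁻¹) ((analytic_mo f α).mul (analytic_inv f))]
    rfl

theorem component_eq (f : (Fin d → ℤ) →₀ ℂ) (x y : Compl f)
    (hxy : ∀ g : (Fin d → ℂ) → ℂ, AnalyticOnNhd ℂ g (M f) → CT x.1 g = CT y.1 g) :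
    (ConnectedComponents.mk x : ConnectedComponents (Compl f)) = ConnectedComponents.mk y := by
  let γ : C(unitInterval, Compl f) :=
    ⟨fun t => ⟨fun i => (1 - (t : ℝ)) * x.1 i + (t : ℝ) * y.1 i,
      segment_compl f x y hxy t t.2.1 t.2.2⟩, by
      refine Continuous.subtype_mk ?_ _
      fun_prop⟩
  have hj : Joined x y := ⟨⟨γ, by
      apply Subtype.ext; funext i; simp [γ], by
      apply Subtype.ext; funext i; simp [γ]⟩⟩
  rw [ConnectedComponents.coe_eq_coe]
  exact connectedComponent_eq (pathComponent_subset_component x hj)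

/-- Main independence statement at the level of chains. -/
theorem independence {m : ℕ} (f : (Fin (m + 1) → ℤ) →₀ ℂ) {ι : Type} [Fintype ι]
    (x : ι → Compl f)
    (hx : ∀ v w, v ≠ w → (ConnectedComponents.mk (x v) : ConnectedComponents (Compl f)) ≠
      ConnectedComponents.mk (x w))
    (c : ι → ℤ) (B : Chain (M f) (m + 2))
    (hB : bdry (M f) (m + 1) B = ∑ i, c i • torusChain f (x i)) (v : ι) : c v = 0 := by
  classical
  have hann : Ann f x (fun i => (c i : ℂ)) := by
    intro g hg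
    have hprod : AnalyticOnNhd ℂ (fun z : Fin (m + 1) → ℂ => (∏ k, z k)⁻¹ * g z) (M f) := by
      intro z hz
      refine AnalyticAt.mul (AnalyticAt.inv ?_ ?_) (hg z hz)
      · exact Finset.analyticAt_fun_prod _ fun k _ =>
          (ContinuousLinearMap.proj k : (Fin (m + 1) → ℂ) →L[ℂ] ℂ).analyticAt z
      · exact Finset.prod_ne_zero_iff.2 fun k _ => hz.1 k
    have h1 := pairing f (isOpen_M f) x c B hB _ hprod
    rw [← h1]
    refine Finset.sum_congr rfl fun i _ => ?_
    congr 1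
    unfold CT
    refine integral_congr_ae (ae_of_all _ fun φ => ?_)
    have hz := E_mem f (x i) φ
    have hne : ∏ k, E (x i).1 φ k ≠ 0 := Finset.prod_ne_zero_iff.2 fun k _ => hz.1 k
    simp only
    rw [← mul_assoc, mul_inv_cancel₀ hne, one_mul]
  have hsep : ∀ v w, v ≠ w → ∃ g : (Fin (m + 1) → ℂ) → ℂ, AnalyticOnNhd ℂ g (M f) ∧
      CT (x v).1 g ≠ CT (x w).1 g := by
    intro v w hvw
    by_contra hcon
    push Not at hcon
    exact hx v w hvw (component_eq f (x v) (x w) hcon)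
  have := hann.eq_zero hsep v
  exact_mod_cast this

end Pool.Agent.Helper947.Am
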