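import Pool.Agent.Helper947.Am.StokesDef

/-! Stokes' theorem on the cube for pullbacks of closed top-degree holomorphic forms. -/

open MeasureTheory Filter Topology

namespace Pool.Agent.Helper947.Am



/-- complex determinant as a real alternating map -/
noncomputable def detR (d : ℕ) : (Fin d → ℂ) [⋀^Fin d]→L[ℝ] ℂ :=
  { (Matrix.detRowAlternating (n := Fin d) (R := ℂ)).toMultilinearMap.restrictScalars ℝ with
    cont := by
      change Continuous fun v : Fin d → Fin d → ℂ => Matrix.det (Matrix.of v)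
      exact Continuous.matrix_det continuous_id
    map_eq_zero_of_eq' := fun v i j hv hij =>
      (Matrix.detRowAlternating (n := Fin d) (R := ℂ)).map_eq_zero_of_eq' v i j hv hij }

theorem detR_apply {d : ℕ} (v : Fin d → Fin d → ℂ) : detR d v = Matrix.det (Matrix.of v) := rfl

/-- the form `h dz_1 ∧ … ∧ dz_d` -/
noncomputable def omg {d : ℕ} (h : (Fin d → ℂ) → ℂ) (z : Fin d → ℂ) :
    (Fin d → ℂ) [⋀^Fin d]→L[ℝ] ℂ := h z • detR d

theorem omg_apply {d : ℕ} (h : (Fin d → ℂ) → ℂ) (z : Fin d → ℂ) (v : Fin d → Fin d → ℂ) :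
    omg h z v = h z * Matrix.det (Matrix.of v) := rfl

theorem omg_diff {d : ℕ} {h : (Fin d → ℂ) → ℂ} {z : Fin d → ℂ} (hh : DifferentiableAt ℂ h z) :
    DifferentiableAt ℝ (omg h) z := by
  unfold omg
  exact (hh.restrictScalars ℝ).smul_const (detR d)

theorem det_aux {d : ℕ} (L : (Fin d → ℂ) →ₗ[ℂ] ℂ) (v : Fin (d + 1) → Fin d → ℂ) :
    ∑ i : Fin (d + 1), (-1 : ℂ) ^ (i : ℕ) * (L (v i) * Matrix.det (Matrix.of (i.removeNth v))) = 0 := by
  set A : Matrix (Fin (d + 1)) (Fin (d + 1)) ℂ :=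
    Matrix.of fun i => Fin.cons (α := fun _ => ℂ) (L (v i)) (v i) with hA
  have h1 : A.det = 0 := by
    rw [← Matrix.exists_mulVec_eq_zero_iff]
    refine ⟨Fin.cons (α := fun _ => ℂ) 1 (fun k => -L (Pi.single k 1)), ?_, ?_⟩
    · intro h
      have := congrFun h 0
      simp at this
    · funext i
      rw [Matrix.mulVec, dotProduct, Fin.sum_univ_succ]
      simp only [hA, Matrix.of_apply, Fin.cons_zero, Fin.cons_succ, mul_one, Pi.zero_apply]
      have h2 : L (v i) = ∑ k, v i k * L (Pi.single k 1) := by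
        conv_lhs => rw [← Finset.univ_sum_single (v i), map_sum]
        apply Finset.sum_congr rfl
        intro k _
        have : (Pi.single k (v i k) : Fin d → ℂ) = v i k • Pi.single k (1 : ℂ) := by
          rw [← Pi.single_smul, smul_eq_mul, mul_one]
        rw [this, map_smul, smul_eq_mul]
      rw [h2]
      simp
  rw [Matrix.det_succ_column_zero] at h1
  rw [← h1]
  apply Finset.sum_congr rfl
  intro i _
  have h3 : A.submatrix i.succAbove Fin.succ = Matrix.of (i.removeNth v) := by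
    ext j k
    simp [hA, Fin.removeNth]
  rw [h3, hA, Matrix.of_apply, Fin.cons_zero]
  ring

theorem omg_closed {d : ℕ} {h : (Fin d → ℂ) → ℂ} {z : Fin d → ℂ} (hh : DifferentiableAt ℂ h z) :
    extDeriv (omg h) z = 0 := by
  ext v
  rw [extDeriv_apply (omg_diff hh)]
  have h1 : ∀ i : Fin (d + 1), fderiv ℝ (fun y => omg h y (i.removeNth v)) z (v i) =
      (fderiv ℂ h z).toLinearMap (v i) * Matrix.det (Matrix.of (i.removeNth v)) := by
    intro i
    have h2 : HasFDerivAt (fun y => omg h y (i.removeNth v))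
        (((fderiv ℂ h z).restrictScalars ℝ).smulRight (Matrix.det (Matrix.of (i.removeNth v)))) z := by
      have h3 : HasFDerivAt h ((fderiv ℂ h z).restrictScalars ℝ) z :=
        hh.hasFDerivAt.restrictScalars ℝ
      have h4 := h3.smul_const (Matrix.det (Matrix.of (i.removeNth v)))
      exact h4
    rw [h2.fderiv]
    rfl
  simp only [h1]
  have h5 := det_aux (fderiv ℂ h z).toLinearMap v
  refine Eq.trans ?_ h5
  apply Finset.sum_congr rfl
  intro i _
  rw [zsmul_eq_mul]
  push_cast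
  rfl

/-- insertion of a fixed coordinate, linear part -/
noncomputable def insL {d : ℕ} (i : Fin (d + 1)) : (Fin d → ℝ) →L[ℝ] (Fin (d + 1) → ℝ) :=
  ContinuousLinearMap.pi (i.insertNth (α := fun _ => (Fin d → ℝ) →L[ℝ] ℝ) 0
    (fun j => ContinuousLinearMap.proj j))

theorem insL_deriv {d : ℕ} (i : Fin (d + 1)) (c : ℝ) (s : Fin d → ℝ) :
    HasFDerivAt (fun s : Fin d → ℝ => i.insertNth (α := fun _ => ℝ) c s) (insL i) s := by
  rw [hasFDerivAt_pi']
  intro l
  refine Fin.succAboveCases i ?_ (fun j => ?_) l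
  · have h1 : (ContinuousLinearMap.proj i).comp (insL i) = (0 : (Fin d → ℝ) →L[ℝ] ℝ) := by
      ext v
      simp [insL]
    rw [h1]
    simp only [Fin.insertNth_apply_same]
    exact hasFDerivAt_const c s
  · have h1 : (ContinuousLinearMap.proj (i.succAbove j)).comp (insL i) =
        (ContinuousLinearMap.proj j : (Fin d → ℝ) →L[ℝ] ℝ) := by
      ext v
      simp [insL]
    rw [h1]
    simp only [Fin.insertNth_apply_succAbove]
    exact (ContinuousLinearMap.proj j : (Fin d → ℝ) →L[ℝ] ℝ).hasFDerivAt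

theorem insL_single {d : ℕ} (i : Fin (d + 1)) (j : Fin d) :
    insL i (Pi.single j 1) = Pi.single (i.succAbove j) 1 := by
  ext l
  refine Fin.succAboveCases i ?_ (fun k => ?_) l
  · simp [insL]
  · simp only [insL, ContinuousLinearMap.coe_pi', Fin.insertNth_apply_succAbove,
      ContinuousLinearMap.proj_apply]
    by_cases hkj : k = j
    · subst hkj; simp
    · rw [Pi.single_eq_of_ne hkj, Pi.single_eq_of_ne]
      intro h
      exact hkj (Fin.succAbove_right_injective h)

/-- TARGET (Stokes on the cube). -/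
theorem stokes_cube {d : ℕ} (U : Set (Fin d → ℂ)) (hU : IsOpen U) (h : (Fin d → ℂ) → ℂ)
    (hh : AnalyticOnNhd ℂ h U) (K : (Fin (d + 1) → ℝ) → (Fin d → ℂ)) (hK : ContDiff ℝ 2 K)
    (hKU : ∀ s ∈ Set.Icc (0 : Fin (d + 1) → ℝ) 1, K s ∈ U) :
    ∑ i : Fin (d + 1), ((-1 : ℂ) ^ (i : ℕ)) *
      (Jint h (fun s => K (i.insertNth (α := fun _ => ℝ) 1 s)) -
        Jint h (fun s => K (i.insertNth (α := fun _ => ℝ) 0 s))) = 0 := by
  have hKd : Differentiable ℝ K := hK.differentiable (by norm_num)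
  have hK1 : ContDiff ℝ 1 (fderiv ℝ K) := hK.fderiv_right (by norm_num)
  have hKdd : Differentiable ℝ (fderiv ℝ K) := hK1.differentiable (by norm_num)
  have hdh : ∀ z ∈ U, DifferentiableAt ℂ h z := fun z hz => (hh z hz).differentiableAt
  set η : (Fin (d + 1) → ℝ) → (Fin (d + 1) → ℝ) [⋀^Fin d]→L[ℝ] ℂ := fun s =>
    (omg h (K s)).compContinuousLinearMap (fderiv ℝ K s) with hη
  have hηapp : ∀ s v, η s v = h (K s) * Matrix.det (Matrix.of fun j => fderiv ℝ K s (v j)) :=
    fun s v => rfl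
  have hηd : ∀ s, K s ∈ U → DifferentiableAt ℝ η s := by
    intro s hs
    have h1 : DifferentiableAt ℝ (fun s => omg h (K s)) s :=
      (omg_diff (hdh _ hs)).comp s (hKd s)
    exact h1.continuousAlternatingMapCompContinuousLinearMap (hKdd s)
  have hclosed : ∀ s, K s ∈ U → extDeriv η s = 0 := by
    intro s hs
    have h1 := extDeriv_pullback (r := 2) (f := K) (x := s) (omg_diff (hdh _ hs))
      hK.contDiffAt (by simp)
    rw [omg_closed (hdh _ hs)] at h1
    rw [hη, h1]
    rfl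
  set e : Fin (d + 1) → (Fin (d + 1) → ℝ) := fun i => Pi.single i 1 with he
  set f : Fin (d + 1) → (Fin (d + 1) → ℝ) → ℂ := fun i s =>
    (-1 : ℂ) ^ (i : ℕ) * η s (i.removeNth e) with hf
  set f' : Fin (d + 1) → (Fin (d + 1) → ℝ) → (Fin (d + 1) → ℝ) →L[ℝ] ℂ := fun i s =>
    (-1 : ℂ) ^ (i : ℕ) • fderiv ℝ (fun y => η y (i.removeNth e)) s with hf'
  have hdiv : ∀ s, K s ∈ U → ∑ i, f' i s (e i) = 0 := by
    intro s hs
    have h1 : extDeriv η s e = 0 := by rw [hclosed s hs]; rfl
    rw [extDeriv_apply (hηd s hs)] at h1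
    rw [← h1]
    apply Finset.sum_congr rfl
    intro i _
    rw [zsmul_eq_mul]
    push_cast
    rfl
  have hcont : ∀ i, ContinuousOn (f i) (Set.Icc 0 1) := by
    intro i
    apply ContinuousOn.mul continuousOn_const
    intro s hs
    have h1 := (hηd s (hKU s hs)).continuousAt
    have h2 : ContinuousAt (fun s => η s (i.removeNth e)) s := by
      have h3 : Continuous fun w : (Fin (d + 1) → ℝ) [⋀^Fin d]→L[ℝ] ℂ => w (i.removeNth e) :=
        (ContinuousAlternatingMap.apply ℝ (Fin (d + 1) → ℝ) ℂ (i.removeNth e)).continuous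
      exact h3.continuousAt.comp h1
    exact h2.continuousWithinAt
  have hder : ∀ s ∈ (Set.pi Set.univ fun i => Set.Ioo ((0 : Fin (d + 1) → ℝ) i)
      ((1 : Fin (d + 1) → ℝ) i)) \ (∅ : Set (Fin (d + 1) → ℝ)), ∀ i, HasFDerivAt (f i) (f' i s) s := by
    intro s hs i
    have hs' : s ∈ Set.Icc (0 : Fin (d + 1) → ℝ) 1 := by
      rw [Set.mem_Icc, Pi.le_def, Pi.le_def]
      exact ⟨fun j => (hs.1 j (Set.mem_univ j)).1.le, fun j => (hs.1 j (Set.mem_univ j)).2.le⟩
    have h1 : DifferentiableAt ℝ (fun y => η y (i.removeNth e)) s := by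
      have h3 : Differentiable ℝ fun w : (Fin (d + 1) → ℝ) [⋀^Fin d]→L[ℝ] ℂ =>
          w (i.removeNth e) :=
        (ContinuousAlternatingMap.apply ℝ (Fin (d + 1) → ℝ) ℂ (i.removeNth e)).differentiable
      exact (h3 _).comp s (hηd s (hKU s hs'))
    exact h1.hasFDerivAt.const_smul ((-1 : ℂ) ^ (i : ℕ))
  have hint : IntegrableOn (fun x => ∑ i, f' i x (e i)) (Set.Icc 0 1) := by
    apply (integrableOn_zero (μ := volume) (s := Set.Icc (0 : Fin (d + 1) → ℝ) 1)).congr_fun _
      measurableSet_Icc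
    intro s hs
    exact (hdiv s (hKU s hs)).symm
  have hD := integral_divergence_of_hasFDerivAt_off_countable' (0 : Fin (d + 1) → ℝ) 1
    zero_le_one f f' ∅ Set.countable_empty hcont hder hint
  have h0 : ∫ x in Set.Icc (0 : Fin (d + 1) → ℝ) 1, ∑ i, f' i x (e i) = 0 :=
    setIntegral_eq_zero_of_forall_eq_zero fun s hs => hdiv s (hKU s hs)
  rw [h0] at hD
  rw [hD]
  apply Finset.sum_congr rfl
  intro i _
  have hface : ∀ (c : ℝ) (x : Fin d → ℝ), f i (i.insertNth (α := fun _ => ℝ) c x) =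
      (-1 : ℂ) ^ (i : ℕ) * (h (K (i.insertNth (α := fun _ => ℝ) c x)) *
        Matrix.det (Matrix.of fun j k : Fin d =>
          fderiv ℝ (fun s => K (i.insertNth (α := fun _ => ℝ) c s)) x (Pi.single j 1) k)) := by
    intro c x
    simp only [hf]
    rw [hηapp]
    congr 3
    ext j k
    have h1 : HasFDerivAt (fun s : Fin d → ℝ => K (i.insertNth (α := fun _ => ℝ) c s))
        ((fderiv ℝ K (i.insertNth (α := fun _ => ℝ) c x)).comp (insL i)) x :=
      (hKd _).hasFDerivAt.comp x (insL_deriv i c x)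
    rw [Matrix.of_apply, Matrix.of_apply, h1.fderiv, ContinuousLinearMap.comp_apply, insL_single]
    rfl
  have hfaces : Set.Icc ((0 : Fin (d + 1) → ℝ) ∘ i.succAbove) ((1 : Fin (d + 1) → ℝ) ∘ i.succAbove) =
      Set.Icc (0 : Fin d → ℝ) 1 := rfl
  rw [hfaces]
  simp only [Pi.one_apply, Pi.zero_apply, hface]
  rw [integral_const_mul, integral_const_mul, ← mul_sub]
  rfl

end Pool.Agent.Helper947.Am
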