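import Pool.Agent.Helper947.Am.Coll
import Pool.Agent.Helper947.Am.Bern
import Pool.Agent.Helper947.Am.Cycle
import Pool.Agent.Helper947.Am.Stokes

/-! Pairing of singular chains with holomorphic forms by Bernstein smoothing. -/

open MeasureTheory Filter Topology

namespace Pool.Agent.Helper947.Am

variable {d : ℕ}

theorem Jint_congr (h : (Fin d → ℂ) → ℂ) (κ κ' : (Fin d → ℝ) → (Fin d → ℂ))
    (hκ : ∀ s ∈ Set.Icc (0 : Fin d → ℝ) 1, κ s = κ' s) : Jint h κ = Jint h κ' := by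
  unfold Jint
  have hset : (Set.pi Set.univ fun i : Fin d => Set.Ioo ((0 : Fin d → ℝ) i) ((1 : Fin d → ℝ) i))
      =ᵐ[volume] Set.Icc (0 : Fin d → ℝ) 1 := Measure.univ_pi_Ioo_ae_eq_Icc
  rw [← setIntegral_congr_set hset, ← setIntegral_congr_set hset]
  have hopen : IsOpen (Set.pi Set.univ fun i : Fin d =>
      Set.Ioo ((0 : Fin d → ℝ) i) ((1 : Fin d → ℝ) i)) :=
    isOpen_set_pi Set.finite_univ fun i _ => isOpen_Ioo
  refine setIntegral_congr_fun hopen.measurableSet fun s hs => ?_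
  have hsub : (Set.pi Set.univ fun i : Fin d =>
      Set.Ioo ((0 : Fin d → ℝ) i) ((1 : Fin d → ℝ) i)) ⊆ Set.Icc (0 : Fin d → ℝ) 1 := by
    intro u hu
    exact ⟨fun i => (hu i (Set.mem_univ _)).1.le, fun i => (hu i (Set.mem_univ _)).2.le⟩
  have hev : κ =ᶠ[𝓝 s] κ' := by
    filter_upwards [hopen.mem_nhds hs] with u hu
    exact hκ u (hsub hu)
  rw [hev.fderiv_eq, hev.eq_of_nhds]

theorem Jint_indep (h : (Fin d → ℂ) → ℂ) (κ : (Fin d → ℝ) → (Fin d → ℂ)) (j : Fin d)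
    (hκ : ∀ s a, κ (Function.update s j a) = κ s) : Jint h κ = 0 := by
  unfold Jint
  have : ∀ s, Matrix.det (Matrix.of fun j k : Fin d => fderiv ℝ κ s (Pi.single j 1) k) = 0 := by
    intro s
    refine Matrix.det_eq_zero_of_row_eq_zero j fun k => ?_
    rw [Matrix.of_apply]
    by_cases hd : DifferentiableAt ℝ κ s
    · have h1 : fderiv ℝ κ s (Pi.single j 1) = lineDeriv ℝ κ s (Pi.single j 1) :=
        (hd.lineDeriv_eq_fderiv).symm
      rw [h1]
      unfold lineDeriv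
      have h2 : (fun t : ℝ => κ (s + t • Pi.single j (1 : ℝ))) = fun _ => κ s := by
        funext t
        have : s + t • (Pi.single j (1 : ℝ) : Fin d → ℝ) = Function.update s j (s j + t) := by
          funext i
          by_cases hi : i = j
          · subst hi; simp
          · simp [Function.update_of_ne hi, Pi.single_eq_of_ne hi]
        rw [this, hκ]
      rw [h2]
      simp
    · rw [fderiv_zero_of_not_differentiableAt hd]
      rfl
  simp [this]

/-- The homotopy functional. -/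
noncomputable def Hom (h : (Fin (d + 1) → ℂ) → ℂ) (N : ℕ) (g : (Fin d → ℝ) → (Fin (d + 1) → ℂ)) :
    ℂ :=
  Jint h fun s : Fin (d + 1) → ℝ => (1 - s 0) • g (Fin.tail s) + s 0 • BN N g (Fin.tail s)

theorem tail_mem {s : Fin (d + 1) → ℝ} (hs : s ∈ Set.Icc (0 : Fin (d + 1) → ℝ) 1) :
    Fin.tail s ∈ Set.Icc (0 : Fin d → ℝ) 1 :=
  ⟨fun i => hs.1 i.succ, fun i => hs.2 i.succ⟩

theorem Hom_congr (h : (Fin (d + 1) → ℂ) → ℂ) (N : ℕ) (g g' : (Fin d → ℝ) → (Fin (d + 1) → ℂ))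
    (hg : ∀ s ∈ Set.Icc (0 : Fin d → ℝ) 1, g s = g' s) : Hom h N g = Hom h N g' := by
  refine Jint_congr h _ _ fun s hs => ?_
  rw [hg _ (tail_mem hs), BN_congr N g g' hg]

theorem Hom_indep (h : (Fin (d + 1) → ℂ) → ℂ) (N : ℕ) (j : Fin d)
    (g : (Fin d → ℝ) → (Fin (d + 1) → ℂ))
    (hg : ∀ s a, g (Function.update s j a) = g s) : Hom h N g = 0 := by
  refine Jint_indep h _ j.succ fun s a => ?_
  have h1 : Fin.tail (Function.update s j.succ a) = Function.update (Fin.tail s) j a :=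
    Fin.tail_update_succ s j a
  rw [h1, hg, BN_indep N g j hg, Function.update_of_ne (Fin.succ_ne_zero j).symm]

/-- If the cube is mapped to an open set, then so is its Bernstein approximation, and the whole
segment between them. -/
theorem eventually_mem {n : ℕ} (U : Set (Fin d → ℂ)) (hU : IsOpen U)
    (g : (Fin n → ℝ) → (Fin d → ℂ)) (hg : Continuous g)
    (hgU : ∀ s ∈ Set.Icc (0 : Fin n → ℝ) 1, g s ∈ U) :
    ∃ N₀ : ℕ, ∀ N ≥ N₀, ∀ s ∈ Set.Icc (0 : Fin n → ℝ) 1, ∀ a : ℝ, 0 ≤ a → a ≤ 1 →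
      (1 - a) • g s + a • BN N g s ∈ U := by
  have hK : IsCompact (g '' Set.Icc (0 : Fin n → ℝ) 1) := isCompact_Icc.image hg
  have hKU : g '' Set.Icc (0 : Fin n → ℝ) 1 ⊆ U := by
    rintro _ ⟨s, hs, rfl⟩; exact hgU s hs
  obtain ⟨ε, hε, hth⟩ := hK.exists_thickening_subset_open hU hKU
  obtain ⟨N₀, hN₀⟩ := BN_uniform g hg.continuousOn ε hε
  refine ⟨N₀, fun N hN s hs a ha0 ha1 => hth ?_⟩
  rw [Metric.mem_thickening_iff]
  refine ⟨g s, ⟨s, hs, rfl⟩, ?_⟩
  have : (1 - a) • g s + a • BN N g s - g s = a • (BN N g s - g s) := by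
    module
  rw [dist_eq_norm, this, norm_smul, Real.norm_of_nonneg ha0]
  have h1 := hN₀ N hN s hs
  nlinarith [norm_nonneg (BN N g s - g s)]

/-- Stokes for the smoothing of a singular simplex. -/
theorem pair_face (U : Set (Fin d → ℂ)) (hU : IsOpen U) (h : (Fin d → ℂ) → ℂ)
    (hh : AnalyticOnNhd ℂ h U) (τ : C(Simplex (d + 1), U)) :
    ∃ N₀ : ℕ, ∀ N ≥ N₀,
      ∑ i : Fin (d + 2), ((-1 : ℂ) ^ (i : ℕ)) * Jint h (BN N (sq (τ.comp (faceMap d i)))) = 0 := by
  obtain ⟨N₀, hN₀⟩ := eventually_mem U hU (sq τ) (continuous_sq τ) (fun s _ => sq_mem τ s)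
  refine ⟨max N₀ 1, fun N hN => ?_⟩
  have hN1 : 1 ≤ N := le_trans (le_max_right _ _) hN
  have h1 := stokes_cube U hU h hh (BN N (sq τ)) ((BN_contDiff N _).of_le le_top)
    (fun s hs => by
      have := hN₀ N (le_trans (le_max_left _ _) hN) s hs 1 zero_le_one le_rfl
      simpa using this)
  have h2 := face_sum (fun g : (Fin d → ℝ) → (Fin d → ℂ) => Jint h (BN N g))
    (fun j g hg => Jint_indep h _ j (BN_indep N g j hg)) τ
  rw [← h2, ← h1]
  refine Finset.sum_congr rfl fun i _ => ?_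
  congr 2
  · congr 1
    funext s
    rw [BN_insertNth_one N hN1]
  · congr 1
    funext s
    rw [BN_insertNth_zero N]

theorem contDiff_tail {n : ℕ} : ContDiff ℝ 2 (fun s : Fin (n + 1) → ℝ => Fin.tail s) :=
  contDiff_pi.2 fun i => contDiff_apply ℝ ℝ i.succ

theorem tail_insertNth_succ {n : ℕ} (j : Fin (n + 1)) (c : ℝ) (s : Fin (n + 1) → ℝ) :
    Fin.tail (j.succ.insertNth (α := fun _ => ℝ) c s) =
      j.insertNth (α := fun _ => ℝ) c (Fin.tail s) := by
  funext k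
  show j.succ.insertNth (α := fun _ => ℝ) c s k.succ = _
  induction k using Fin.succAboveCases j with
  | x => simp
  | p k =>
    rw [Fin.insertNth_apply_succAbove, ← Fin.succ_succAbove_succ, Fin.insertNth_apply_succAbove]
    rfl

theorem insertNth_succ_zero {n : ℕ} (j : Fin (n + 1)) (c : ℝ) (s : Fin (n + 1) → ℝ) :
    (j.succ.insertNth (α := fun _ => ℝ) c s : Fin (n + 2) → ℝ) 0 = s 0 := by
  have : (0 : Fin (n + 2)) = j.succ.succAbove 0 := by
    rw [Fin.succ_succAbove_zero]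
  rw [this, Fin.insertNth_apply_succAbove]

/-- Comparison of a smooth cube with its Bernstein smoothing. -/
theorem pair_homotopy (U : Set (Fin (d + 1) → ℂ)) (hU : IsOpen U) (h : (Fin (d + 1) → ℂ) → ℂ)
    (hh : AnalyticOnNhd ℂ h U) (σ : C(Simplex (d + 1), U))
    (κ : (Fin (d + 1) → ℝ) → (Fin (d + 1) → ℂ)) (hκ : ContDiff ℝ 2 κ)
    (hκσ : ∀ s ∈ Set.Icc (0 : Fin (d + 1) → ℝ) 1, κ s = sq σ s) :
    ∃ N₀ : ℕ, ∀ N ≥ N₀, Jint h (BN N (sq σ)) - Jint h κ =
      ∑ i : Fin (d + 2), ((-1 : ℂ) ^ (i : ℕ)) * Hom h N (sq (σ.comp (faceMap d i))) := by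
  obtain ⟨N₀, hN₀⟩ := eventually_mem U hU κ hκ.continuous
    (fun s hs => by rw [hκσ s hs]; exact sq_mem σ s)
  refine ⟨max N₀ 1, fun N hN => ?_⟩
  have hN1 : 1 ≤ N := le_trans (le_max_right _ _) hN
  have hcd : ContDiff ℝ 2 (fun s : Fin (d + 2) → ℝ =>
      (1 - s 0) • κ (Fin.tail s) + s 0 • BN N κ (Fin.tail s)) := by
    have h0 : ContDiff ℝ 2 (fun s : Fin (d + 2) → ℝ => s 0) := contDiff_apply ℝ ℝ 0
    exact ((contDiff_const.sub h0).smul (hκ.comp contDiff_tail)).add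
      (h0.smul (((BN_contDiff N κ).of_le le_top).comp contDiff_tail))
  have h1 := stokes_cube U hU h hh _ hcd (fun s hs =>
    hN₀ N (le_trans (le_max_left _ _) hN) _ (tail_mem hs) (s 0) (hs.1 0) (hs.2 0))
  rw [Fin.sum_univ_succ] at h1
  have hz1 : Jint h (fun s : Fin (d + 1) → ℝ =>
      (1 - ((0 : Fin (d + 2)).insertNth (α := fun _ => ℝ) 1 s : Fin (d + 2) → ℝ) 0) •
        κ (Fin.tail ((0 : Fin (d + 2)).insertNth (α := fun _ => ℝ) 1 s)) +
      ((0 : Fin (d + 2)).insertNth (α := fun _ => ℝ) 1 s : Fin (d + 2) → ℝ) 0 •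
        BN N κ (Fin.tail ((0 : Fin (d + 2)).insertNth (α := fun _ => ℝ) 1 s))) =
      Jint h (BN N (sq σ)) := by
    rw [← BN_congr N κ (sq σ) hκσ]
    congr 1
    funext s
    simp [Fin.insertNth_zero']
  have hz0 : Jint h (fun s : Fin (d + 1) → ℝ =>
      (1 - ((0 : Fin (d + 2)).insertNth (α := fun _ => ℝ) 0 s : Fin (d + 2) → ℝ) 0) •
        κ (Fin.tail ((0 : Fin (d + 2)).insertNth (α := fun _ => ℝ) 0 s)) +
      ((0 : Fin (d + 2)).insertNth (α := fun _ => ℝ) 0 s : Fin (d + 2) → ℝ) 0 •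
        BN N κ (Fin.tail ((0 : Fin (d + 2)).insertNth (α := fun _ => ℝ) 0 s))) =
      Jint h κ := by
    congr 1
    funext s
    simp [Fin.insertNth_zero']
  rw [hz1, hz0] at h1
  have hj : ∀ j : Fin (d + 1), ∀ c : ℝ, (c = 0 ∨ c = 1) → Jint h (fun s : Fin (d + 1) → ℝ =>
      (1 - (j.succ.insertNth (α := fun _ => ℝ) c s : Fin (d + 2) → ℝ) 0) •
        κ (Fin.tail (j.succ.insertNth (α := fun _ => ℝ) c s)) +
      (j.succ.insertNth (α := fun _ => ℝ) c s : Fin (d + 2) → ℝ) 0 •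
        BN N κ (Fin.tail (j.succ.insertNth (α := fun _ => ℝ) c s))) =
      Hom h N (fun s => sq σ (j.insertNth (α := fun _ => ℝ) c s)) := by
    intro j c hc
    have hcI : ∀ s ∈ Set.Icc (0 : Fin d → ℝ) 1,
        (j.insertNth (α := fun _ => ℝ) c s : Fin (d + 1) → ℝ) ∈ Set.Icc (0 : Fin (d + 1) → ℝ) 1 := by
      intro s hs
      constructor
      · intro k
        induction k using Fin.succAboveCases j with
        | x => rcases hc with rfl | rfl <;> simp
        | p k => simpa using hs.1 k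
      · intro k
        induction k using Fin.succAboveCases j with
        | x => rcases hc with rfl | rfl <;> simp
        | p k => simpa using hs.2 k
    rw [Hom_congr h N (fun s => sq σ (j.insertNth (α := fun _ => ℝ) c s))
      (fun s => κ (j.insertNth (α := fun _ => ℝ) c s)) (fun s hs => (hκσ _ (hcI s hs)).symm)]
    unfold Hom
    congr 1
    funext s
    rw [insertNth_succ_zero, tail_insertNth_succ]
    rcases hc with rfl | rfl
    · rw [BN_insertNth_zero N]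
    · rw [BN_insertNth_one N hN1]
  have h2 := face_sum (fun g : (Fin d → ℝ) → (Fin (d + 1) → ℂ) => Hom h N g)
    (fun j g hg => Hom_indep h N j g hg) σ
  rw [← h2]
  rw [Finset.sum_congr rfl fun j _ => by rw [hj j 1 (Or.inr rfl), hj j 0 (Or.inl rfl)]] at h1
  simp only [Fin.val_zero, pow_zero, one_mul, Fin.val_succ, pow_succ] at h1
  have h3 : ∑ x : Fin (d + 1), (-1 : ℂ) ^ (x : ℕ) * -1 *
      (Hom h N (fun s => sq σ (x.insertNth (α := fun _ => ℝ) 1 s)) -
        Hom h N (fun s => sq σ (x.insertNth (α := fun _ => ℝ) 0 s))) =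
      -∑ x : Fin (d + 1), (-1 : ℂ) ^ (x : ℕ) *
      (Hom h N (fun s => sq σ (x.insertNth (α := fun _ => ℝ) 1 s)) -
        Hom h N (fun s => sq σ (x.insertNth (α := fun _ => ℝ) 0 s))) := by
    rw [← Finset.sum_neg_distrib]
    exact Finset.sum_congr rfl fun j _ => by ring
  rw [h3] at h1
  linear_combination h1

end Pool.Agent.Helper947.Am
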