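import Mathlib

/-! The integral of the pullback of a top-degree holomorphic form over a cube. -/

open MeasureTheory

namespace Pool.Agent.Helper947.Am

/-- The integral over the cube `[0,1]^d` of the pullback by `κ` of the form
`h(z) dz_1 ∧ … ∧ dz_d`. -/
noncomputable def Jint {d : ℕ} (h : (Fin d → ℂ) → ℂ) (κ : (Fin d → ℝ) → (Fin d → ℂ)) : ℂ :=
  ∫ s in Set.Icc (0 : Fin d → ℝ) 1,
    h (κ s) * Matrix.det (Matrix.of fun j k : Fin d => fderiv ℝ κ s (Pi.single j 1) k)

end Pool.Agent.Helper947.Am
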